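import Mathlib

/-!
# Two walks without conflicts in one digraph

Steps are of two kinds, edge steps `ZE` and arc steps `ZA`. The first walk goes from `x` to `x'`,
the second walk is given backwards, from `y` to `y'`. The same edge step must not be used by
both.
-/

namespace Pool.Agent.R538.MO

open Relation

variable {V : Type}

theorem rmono {R R' : V → V → Prop} {x y : V} (h : ReflTransGen R x y)
    (hR : ∀ a b, R a b → R' a b) : ReflTransGen R' x y := by
  induction h with
  | refl => exact ReflTransGen.refl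
  | tail _ h ih => exact ih.tail (hR _ _ h)

/-- consecutive members of a list -/
def Cs : List V → V → V → Prop
  | a :: b :: l, u, v => (u = a ∧ v = b) ∨ Cs (b :: l) u v
  | _, _, _ => False

theorem Cs.mem_left : ∀ {l : List V} {u v : V}, Cs l u v → u ∈ l
  | [], _, _, h => h.elim
  | [_], _, _, h => h.elim
  | a :: b :: l, u, v, h => by
    rcases h with h | h
    · rw [h.1]; exact List.mem_cons_self
    · exact List.mem_cons_of_mem _ (Cs.mem_left h)

theorem Cs.mem_right : ∀ {l : List V} {u v : V}, Cs l u v → v ∈ l.tail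
  | [], _, _, h => h.elim
  | [_], _, _, h => h.elim
  | a :: b :: l, u, v, h => by
    rcases h with h | h
    · rw [h.2]; exact List.mem_cons_self
    · exact List.mem_of_mem_tail (Cs.mem_right h)

theorem Cs.not_symm : ∀ {l : List V} {u v : V}, l.Nodup → Cs l u v → Cs l v u → False
  | [], _, _, _, h, _ => h.elim
  | [_], _, _, _, h, _ => h.elim
  | a :: b :: l, u, v, hn, h, h' => by
    have hn' := List.nodup_cons.1 hn
    rcases h with h | h
    · rcases h' with h' | h'
      · apply hn'.1
        rw [← h'.1, h.2]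
        exact List.mem_cons_self
      · apply hn'.1
        rw [← h.1]
        exact List.mem_of_mem_tail h'.mem_right
    · rcases h' with h' | h'
      · apply hn'.1
        rw [← h'.1]
        exact List.mem_of_mem_tail h.mem_right
      · exact Cs.not_symm hn'.2 h h'

/-- paths with different vertices -/
inductive SP (R : V → V → Prop) : V → V → List V → Prop
  | nil (x : V) : SP R x x [x]
  | cons {x y z : V} {l : List V} : R x y → x ∉ l → SP R y z l → SP R x z (x :: l)

theorem SP.nodup {R : V → V → Prop} {x z : V} {l : List V} (h : SP R x z l) : l.Nodup := by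
  induction h with
  | nil x => simp
  | cons _ h2 _ ih => exact List.nodup_cons.2 ⟨h2, ih⟩

theorem SP.head {R : V → V → Prop} {x z : V} {l : List V} (h : SP R x z l) :
    ∃ l', l = x :: l' := by
  cases h with
  | nil x => exact ⟨[], rfl⟩
  | cons _ _ _ => exact ⟨_, rfl⟩

theorem SP.sub {R : V → V → Prop} {y z x : V} {l : List V} (h : SP R y z l) (hx : x ∈ l) :
    ∃ l', SP R x z l' := by
  induction h with
  | nil y =>
    rw [List.mem_singleton.1 hx]
    exact ⟨_, SP.nil _⟩
  | @cons a b c l h1 h2 h3 ih =>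
    rcases List.mem_cons.1 hx with rfl | hx
    · exact ⟨_, SP.cons h1 h2 h3⟩
    · exact ih hx

theorem exists_SP {R : V → V → Prop} {x z : V} (h : ReflTransGen R x z) : ∃ l, SP R x z l := by
  induction h using ReflTransGen.head_induction_on with
  | refl => exact ⟨_, SP.nil _⟩
  | @head a c h1 _ ih =>
    obtain ⟨l, hl⟩ := ih
    by_cases ha : a ∈ l
    · exact hl.sub ha
    · exact ⟨_, SP.cons h1 ha hl⟩

theorem SP.rel {R : V → V → Prop} {x z : V} {l : List V} (h : SP R x z l) :
    ∀ u v, Cs l u v → R u v := by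
  induction h with
  | nil x => intro u v h; exact h.elim
  | @cons a b c l h1 h2 h3 ih =>
    intro u v h
    obtain ⟨l', rfl⟩ := h3.head
    rcases h with h | h
    · rw [h.1, h.2]; exact h1
    · exact ih u v h

theorem SP.rtg {R : V → V → Prop} {x z : V} {l : List V} (h : SP R x z l) :
    ReflTransGen (fun u v => Cs l u v) x z := by
  induction h with
  | nil x => exact ReflTransGen.refl
  | @cons a b c l h1 h2 h3 ih =>
    obtain ⟨l', rfl⟩ := h3.head
    refine ReflTransGen.head (Or.inl ⟨rfl, rfl⟩) ?_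
    exact rmono ih fun u v h => Or.inr h

theorem stay_out {X : V → Prop} : ∀ {l : List V} {a : V}, (∀ u v, Cs (a :: l) u v → ¬ X u → ¬ X v) →
    ¬ X a → ∀ z ∈ a :: l, ¬ X z
  | [], a, _, ha => by
    intro z hz
    rw [List.mem_singleton.1 hz]
    exact ha
  | b :: l, a, h, ha => by
    intro z hz
    rcases List.mem_cons.1 hz with rfl | hz
    · exact ha
    · exact stay_out (fun u v huv => h u v (Or.inr huv)) (h a b (Or.inl ⟨rfl, rfl⟩) ha) z hz

theorem uniq_leave {X : V → Prop} : ∀ {l : List V}, (∀ u v, Cs l u v → ¬ X u → ¬ X v) →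
    ∀ {p q p2 q2 : V}, Cs l p q → X p → ¬ X q → Cs l p2 q2 → X p2 → ¬ X q2 → p2 = p ∧ q2 = q
  | [], _, _, _, _, _, h, _, _, _, _, _ => h.elim
  | [_], _, _, _, _, _, h, _, _, _, _, _ => h.elim
  | a :: b :: l, hno, p, q, p2, q2, h, hp, hq, h', hp', hq' => by
    have hno' : ∀ u v, Cs (b :: l) u v → ¬ X u → ¬ X v := fun u v huv => hno u v (Or.inr huv)
    rcases h with h | h
    · rcases h' with h' | h'
      · exact ⟨h'.1.trans h.1.symm, h'.2.trans h.2.symm⟩
      · rw [h.2] at hq
        exact absurd hp' (stay_out hno' hq p2 h'.mem_left)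
    · rcases h' with h' | h'
      · rw [h'.2] at hq'
        exact absurd hp (stay_out hno' hq' p h.mem_left)
      · exact uniq_leave hno' h hp hq h' hp' hq'

theorem leave {R : V → V → Prop} {X : V → Prop} {x z : V} (h : ReflTransGen R x z) (hx : X x)
    (hz : ¬ X z) : ∃ p q, R p q ∧ X p ∧ ¬ X q := by
  induction h with
  | refl => exact absurd hx hz
  | @tail b c _ h2 ih =>
    by_cases hb : X b
    · exact ⟨b, c, h2, hb, hz⟩
    · exact ih hb

/-- The test for two walks without conflicts. -/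
def AHT (ZE ZA : V → V → Prop) (x x' y y' : V) : Prop :=
  ReflTransGen (fun u v => ZE u v ∨ ZA u v) x x' ∧
    ReflTransGen (fun u v => ZA v u ∨ (ZE v u ∧
      ReflTransGen (fun p q => ZA p q ∨ (ZE p q ∧ ¬ (p = u ∧ q = v))) x x')) y y'

theorem aht_mpr {ZE ZA : V → V → Prop} {x x' y y' : V} {U W : V → V → Prop}
    (hUW : ∀ u v, U u v → ¬ W u v)
    (h1 : ReflTransGen (fun u v => (U u v ∧ ZE u v) ∨ ZA u v) x x')
    (h2 : ReflTransGen (fun u v => (W u v ∧ ZE v u) ∨ ZA v u) y y') : AHT ZE ZA x x' y y' := by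
  refine ⟨rmono h1 fun u v h => h.imp (fun h => h.2) (fun h => h), rmono h2 fun u v h => ?_⟩
  rcases h with h | h
  · refine Or.inr ⟨h.2, rmono h1 fun p q h' => ?_⟩
    rcases h' with h' | h'
    · refine Or.inr ⟨h'.2, ?_⟩
      rintro ⟨rfl, rfl⟩
      exact hUW _ _ h'.1 h.1
    · exact Or.inl h'
  · exact Or.inl h

theorem aht_mp {ZE ZA : V → V → Prop} {x x' y y' : V} (h : AHT ZE ZA x x' y y') :
    ∃ U W : V → V → Prop, (∀ u v, U u v → ¬ W u v) ∧
      ReflTransGen (fun u v => (U u v ∧ ZE u v) ∨ ZA u v) x x' ∧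
      ReflTransGen (fun u v => (W u v ∧ ZE v u) ∨ ZA v u) y y' := by
  obtain ⟨h1, h2⟩ := h
  obtain ⟨l, hl⟩ := exists_SP h2
  let W : V → V → Prop := fun u v => Cs l u v ∧
    ReflTransGen (fun p q => ZA p q ∨ (ZE p q ∧ ¬ (p = u ∧ q = v))) x x'
  refine ⟨fun u v => ¬ W u v, W, fun u v h h' => h h', ?_, ?_⟩
  · by_contra hx
    let X : V → Prop := fun z => ReflTransGen (fun u v => (¬ W u v ∧ ZE u v) ∨ ZA u v) x z
    have hX0 : X x := ReflTransGen.refl
    have hlv : ∀ p q, (ZE p q ∨ ZA p q) → X p → ¬ X q → W p q := by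
      intro p q hpq hp hq
      by_contra hW
      rcases hpq with hpq | hpq
      · exact hq (hp.tail (Or.inl ⟨hW, hpq⟩))
      · exact hq (hp.tail (Or.inr hpq))
    obtain ⟨p, q, hpq, hp, hq⟩ := leave h1 hX0 hx
    have hW := hlv p q hpq hp hq
    obtain ⟨p2, q2, hpq2, hp2, hq2⟩ := leave hW.2 hX0 hx
    have hpq2' : ZE p2 q2 ∨ ZA p2 q2 := hpq2.elim Or.inr (fun h => Or.inl h.1)
    have hW2 := hlv p2 q2 hpq2' hp2 hq2
    have hne : ¬ (p2 = p ∧ q2 = q) := by
      rcases hpq2 with h | h
      · exact fun _ => hq2 (hp2.tail (Or.inr h))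
      · exact h.2
    refine hne (uniq_leave (l := l) (X := X) ?_ hW.1 hp hq hW2.1 hp2 hq2)
    intro u v huv hu hv
    have h3 : ZE v u ∨ ZA v u := (hl.rel u v huv).elim Or.inr (fun h => Or.inl h.1)
    exact Cs.not_symm hl.nodup huv (hlv v u h3 hv hu).1
  · refine rmono hl.rtg fun u v huv => ?_
    rcases hl.rel u v huv with h | h
    · exact Or.inr h
    · exact Or.inl ⟨⟨huv, h.2⟩, h.1⟩

/-! ### Layers -/

/-- walks with a number of steps -/
inductive Stp (R : V → V → Prop) : ℕ → V → V → Prop
  | nil (x : V) : Stp R 0 x x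
  | cons {k : ℕ} {x y z : V} : R x y → Stp R k y z → Stp R (k + 1) x z

theorem exists_Stp {R : V → V → Prop} {x z : V} (h : ReflTransGen R x z) : ∃ k, Stp R k x z := by
  induction h using ReflTransGen.head_induction_on with
  | refl => exact ⟨0, Stp.nil _⟩
  | head h1 _ ih =>
    obtain ⟨k, hk⟩ := ih
    exact ⟨k + 1, Stp.cons h1 hk⟩

/-- a walk can be thinned out so that no step is used in both directions -/
theorem exists_anti {R : V → V → Prop} {x z : V} (h : ReflTransGen R x z) :
    ∃ C : V → V → Prop, (∀ u v, C u v → ¬ C v u) ∧ (∀ u v, C u v → R u v) ∧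
      ReflTransGen C x z := by
  obtain ⟨l, hl⟩ := exists_SP h
  exact ⟨Cs l, fun u v h h' => Cs.not_symm hl.nodup h h', hl.rel, hl.rtg⟩

end Pool.Agent.R538.MO
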