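import Pool.Agent.H614R2.DPO.TB
import Pool.Agent.R538.MO.AH

/-!
# Bellman-Ford for digraphs

The proofs of `H614R2.DPO.TB`, without the assumption of symmetry.
-/

namespace Pool.Agent.R538.MO

open Relation Pool.Agent.NPC Pool.Agent.H614R2.DPO

variable {w : ℕ → ℕ → Option ℕ} {n s : ℕ}

/-- all vertices are below `n` -/
def LtN (w : ℕ → ℕ → Option ℕ) (n : ℕ) : Prop := ∀ u v, w u v ≠ none → u < n ∧ v < n

theorem C_lt (hw : LtN w n) (hs : s < n) {L : List ℕ} {d : ℕ} (h : B_L w s L d) :
    ∀ x ∈ L, x < n := by
  induction h with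
  | nil => intro x hx; rw [List.mem_singleton.1 hx]; exact hs
  | @cons u v c d L h1 h2 ih =>
    intro x hx
    rcases List.mem_cons.1 hx with rfl | hx
    · exact (hw u x (by rw [h2]; simp)).2
    · exact ih x hx

theorem C_length (hw : LtN w n) (hs : s < n) {L : List ℕ} {d : ℕ} (h : B_L w s L d)
    (hn : L.Nodup) : L.length ≤ n := by
  rw [← List.toFinset_card_of_nodup hn, ← Finset.card_range n]
  apply Finset.card_le_card
  intro x hx
  exact Finset.mem_range.2 (C_lt hw hs h x (List.mem_toFinset.1 hx))

theorem C_complete (hw : LtN w n) (hs : s < n) {L : List ℕ} {d : ℕ} (h : B_L w s L d) :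
    ∀ r v, L.head? = some v → L.length ≤ r + 1 → (B_D w n s r).getD v 0 ≤ d := by
  have key : ∀ r, (B_D w n s r).getD s 0 ≤ 0 := by
    intro r
    induction r with
    | zero => rw [B_zero hs]; simp
    | succ r ih => exact (B_succ_le hs r).trans ih
  induction h with
  | nil =>
    intro r v hv _
    have : s = v := by simpa using hv
    subst this
    exact key r
  | @cons u v c d L h1 h2 ih =>
    intro r x hx hr
    have hvx : v = x := by simpa using hx
    subst hvx
    have hlt := hw u v (by rw [h2]; simp)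
    cases r with
    | zero => simp at hr
    | succ r =>
      have h3 := ih r u rfl (by simpa using hr)
      exact (B_succ_le' hlt.1 hlt.2 h2 r).trans (by omega)

theorem C_edge (hw : LtN w n) {u v c : ℕ} (h : w u v = some c) : c ≤ B_S w n := by
  have hlt := hw u v (by rw [h]; simp)
  have h1 := B_le_sum (List.range n) (fun v => (w u v).getD 0) (List.mem_range.2 hlt.2)
  have h2 := B_le_sum (List.range n) (fun u => ((List.range n).map
    (fun v => (w u v).getD 0)).sum) (List.mem_range.2 hlt.1)
  simp only [h, Option.getD_some] at h1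
  exact h1.trans h2

theorem C_cap (hw : LtN w n) {L : List ℕ} {d : ℕ} (h : B_L w s L d) :
    d ≤ L.length * B_S w n := by
  induction h with
  | nil => simp
  | @cons u v c d L h1 h2 ih =>
    have := C_edge hw h2
    rw [List.length_cons, Nat.add_mul]
    omega

theorem cbfd_le (hw : LtN w n) (hs : s < n) {v d : ℕ} (h : Wk w s v d) : bfd w n s v ≤ d := by
  obtain ⟨L, d', h1, h2, h3⟩ := B_short h
  have h4 := C_length hw hs h1 h2
  exact (C_complete hw hs h1 n v rfl (by omega)).trans h3

theorem cbfd_wk (hw : LtN w n) (hs : s < n) {v d : ℕ} (h : Wk w s v d) :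
    Wk w s v (bfd w n s v) := by
  obtain ⟨L, d', h1, h2, h3⟩ := B_short h
  have h4 := C_length hw hs h1 h2
  have h5 := C_complete hw hs h1 n v rfl (by omega)
  have h6 := C_cap hw h1
  have h7 : (v :: L).length * B_S w n ≤ n * B_S w n := Nat.mul_le_mul_right _ h4
  refine B_wk (r := n) (C_lt hw hs h1 v List.mem_cons_self) ?_
  rw [B_capB]
  omega

theorem cbfd_lip (hw : LtN w n) (hs : s < n) {u v c : ℕ} (h : w u v = some c) :
    bfd w n s v ≤ bfd w n s u + c := by
  have hlt := hw u v (by rw [h]; simp)
  by_cases hu : bfd w n s u < capB w n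
  · exact cbfd_le hw hs (B_snoc (B_wk (r := n) hlt.1 hu) h)
  · have : bfd w n s v ≤ capB w n := B_le_cap' n v
    omega

/-! ### Tight walks -/

theorem wk_lip {f : ℕ → ℕ} (hf : ∀ u v c, w u v = some c → f v ≤ f u + c) {u v d : ℕ}
    (h : Wk w u v d) : f v ≤ f u + d := by
  induction h with
  | nil u => omega
  | @cons u v x c d h1 _ ih =>
    have := hf u v c h1
    omega

theorem wk_tight {f : ℕ → ℕ} (hf : ∀ u v c, w u v = some c → f v ≤ f u + c) {u v d : ℕ}
    (h : Wk w u v d) (hd : f u + d ≤ f v) :
    ReflTransGen (fun u v => ∃ c, w u v = some c ∧ f v = f u + c) u v := by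
  induction h with
  | nil u => exact ReflTransGen.refl
  | @cons u v x c d h1 h2 ih =>
    have h3 := hf u v c h1
    have h4 := wk_lip hf h2
    exact ReflTransGen.head ⟨c, h1, by omega⟩ (ih (by omega))

theorem wk_of_rtg {s v : ℕ} (h : ReflTransGen (fun a b => w a b ≠ none) s v) :
    ∃ d, Wk w s v d := by
  induction h using ReflTransGen.head_induction_on with
  | refl => exact ⟨0, Wk.nil _⟩
  | head h _ ih =>
    obtain ⟨d, hd⟩ := ih
    obtain ⟨c, hc⟩ := Option.ne_none_iff_exists'.1 h
    exact ⟨_, Wk.cons hc hd⟩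

/-- if `v` can be reached from `s`, it can be reached by tight steps -/
theorem bfd_tight (hw : LtN w n) (hs : s < n) {v : ℕ}
    (h : ReflTransGen (fun a b => w a b ≠ none) s v) :
    ReflTransGen (fun u v => ∃ c, w u v = some c ∧ bfd w n s v = bfd w n s u + c) s v := by
  obtain ⟨d, hd⟩ := wk_of_rtg h
  have h0 : bfd w n s s ≤ 0 := cbfd_le hw hs (Wk.nil s)
  refine wk_tight (f := bfd w n s) (fun u v c => cbfd_lip hw hs) (cbfd_wk hw hs hd) ?_
  omega

/-! ### Two kinds of steps -/

/-- the shorter one of two lengths -/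
def comb (x y : Option ℕ) : Option ℕ :=
  x.elim y (fun c => y.elim (some c) (fun d => some (min c d)))

theorem comb_some {x y : Option ℕ} {c : ℕ} (h : comb x y = some c) : x = some c ∨ y = some c := by
  cases x with
  | none => exact Or.inr h
  | some a =>
    cases y with
    | none => exact Or.inl h
    | some b =>
      have h' : min a b = c := by simpa [comb] using h
      rcases min_choice a b with h2 | h2
      · exact Or.inl (by rw [← h', h2])
      · exact Or.inr (by rw [← h', h2])

theorem comb_left {x y : Option ℕ} {c : ℕ} (h : x = some c) : ∃ d ≤ c, comb x y = some d := by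
  subst h
  cases y with
  | none => exact ⟨c, le_rfl, rfl⟩
  | some b => exact ⟨min c b, min_le_left _ _, rfl⟩

theorem comb_right {x y : Option ℕ} {c : ℕ} (h : y = some c) : ∃ d ≤ c, comb x y = some d := by
  subst h
  cases x with
  | none => exact ⟨c, le_rfl, rfl⟩
  | some b => exact ⟨min b c, min_le_right _ _, rfl⟩

theorem comb_ne {x y : Option ℕ} : comb x y ≠ none ↔ x ≠ none ∨ y ≠ none := by
  cases x <;> cases y <;> simp [comb]

end Pool.Agent.R538.MO
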