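import Pool.Agent.R538.MO.Core
import Pool.Agent.R538.MO.BF
import Pool.Agent.H614R2.DPO.TD
import Pool.Agent.H614R2.DPO.TP2

/-!
# The algorithm
-/

namespace Pool.Agent.R538.MO

open Relation Pool.Agent.NPC Pool.Agent.H614R2.DPO

/-- `u` and `v` have the same value of `a - b` -/
def eqB (a b : ℕ → ℕ) (u v : ℕ) : Bool := decide (a u + b v = a v + b u)

/-- `u` has a smaller value of `a - b` than `v` -/
def ltB (a b : ℕ → ℕ) (u v : ℕ) : Bool := decide (a u + b v < a v + b u)

/-- steps in the level of `c` -/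
def zB (pe pa : ℕ → ℕ → Bool) (a b : ℕ → ℕ) (c u v : ℕ) : Bool :=
  (eqB a b u c && eqB a b v c) && (pe u v || pa u v)

/-- steps in the level of `c` without the edge step from `e` to `f` -/
def zmB (pe pa : ℕ → ℕ → Bool) (a b : ℕ → ℕ) (c e f u v : ℕ) : Bool :=
  (eqB a b u c && eqB a b v c) && (pa u v || (pe u v && !(decide (u = e) && decide (v = f))))

/-- the steps of the second walk -/
def zqB (pe pa : ℕ → ℕ → Bool) (a b : ℕ → ℕ) (R : List ℕ) (c x x' u v : ℕ) : Bool :=
  (eqB a b u c && eqB a b v c) &&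
    (pa v u || (pe v u && decide (x' ∈ reachG (zmB pe pa a b c u v) R x)))

/-- test for two walks without conflicts in the level of `x` -/
def tB (pe pa : ℕ → ℕ → Bool) (a b : ℕ → ℕ) (R : List ℕ) (x x' y y' : ℕ) : Bool :=
  decide (x' ∈ reachG (zB pe pa a b x) R x) &&
    decide (y' ∈ reachG (zqB pe pa a b R x x x') R y)

/-- test for `Jump` -/
def jumpB (pe pa qe qa : ℕ → ℕ → Bool) (a b : ℕ → ℕ) (p1 p2 q1 q2 : ℕ) : Bool :=
  (ltB a b p1 p2 && ltB a b q1 q2) && (((pe p1 p2 || pa p1 p2) && (qe q1 q2 || qa q1 q2)) &&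
    !((decide (p1 = q1) && decide (p2 = q2)) && (!(pa p1 p2) && !(qa q1 q2))))

/-- both walks leave the level of `p` -/
def levB (pe pa qe qa : ℕ → ℕ → Bool) (a b : ℕ → ℕ) (R : List ℕ) (p q p2 q2 : ℕ) : Bool :=
  R.any (fun p1 => R.any (fun q1 => tB pe pa a b R p p1 q q1 &&
    jumpB pe pa qe qa a b p1 p2 q1 q2))

/-- test for `St` -/
def stB (pe pa qe qa : ℕ → ℕ → Bool) (a b : ℕ → ℕ) (R : List ℕ) (z z' : ℕ × ℕ) : Bool :=
  (ltB a b z.1 z.2 && (decide (z'.2 = z.2) && (pe z.1 z'.1 || pa z.1 z'.1))) ||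
  ((ltB a b z.2 z.1 && (decide (z'.1 = z.1) && (qe z.2 z'.2 || qa z.2 z'.2))) ||
  (eqB a b z.2 z.1 && levB pe pa qe qa a b R z.1 z.2 z'.1 z'.2))

/-- test for `Acc` -/
def accB (pe pa : ℕ → ℕ → Bool) (a b : ℕ → ℕ) (R : List ℕ) (t : ℕ) (z : ℕ × ℕ) : Bool :=
  eqB a b z.2 z.1 && tB pe pa a b R z.1 t z.2 t

/-- all pairs -/
def prs (R : List ℕ) : List (ℕ × ℕ) := R.flatMap (fun p => R.map (fun q => (p, q)))

/-- the search in the product graph -/
def coreB (pe pa qe qa : ℕ → ℕ → Bool) (a b : ℕ → ℕ) (R : List ℕ) (s t : ℕ) : Bool :=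
  (prs R).any (fun z => accB pe pa a b R t z &&
    decide (z ∈ reachG (stB pe pa qe qa a b R) (prs R) (s, s)))

/-! ### Correctness -/

section corr

variable {pe pa qe qa : ℕ → ℕ → Bool} {a b : ℕ → ℕ} {n : ℕ}

/-- the potential -/
def dl (a b : ℕ → ℕ) (u : ℕ) : ℤ := (a u : ℤ) - b u

theorem eqB_iff {u v : ℕ} : eqB a b u v = true ↔ dl a b u = dl a b v := by
  unfold eqB dl
  rw [decide_eq_true_eq]
  omega

theorem ltB_iff {u v : ℕ} : ltB a b u v = true ↔ dl a b u < dl a b v := by
  unfold ltB dl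
  rw [decide_eq_true_eq]
  omega

/-- vertices below `n` -/
def LtB (pe : ℕ → ℕ → Bool) (n : ℕ) : Prop := ∀ u v, pe u v = true → u < n ∧ v < n

theorem rtg_lt {R : ℕ → ℕ → Prop} {x y : ℕ} (h : ReflTransGen R x y)
    (hR : ∀ u v, R u v → v < n) (hx : x < n) : y < n := by
  cases h with
  | refl => exact hx
  | tail _ h => exact hR _ _ h

theorem zB_iff {c u v : ℕ} : zB pe pa a b c u v = true ↔
    (Lv (fun u v => pe u v = true) (dl a b) (dl a b c) u v ∨
      Lv (fun u v => pa u v = true) (dl a b) (dl a b c) u v) := by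
  unfold zB Lv
  rw [Bool.and_eq_true, Bool.and_eq_true, Bool.or_eq_true, eqB_iff, eqB_iff]
  tauto

theorem zmB_iff {c e f u v : ℕ} : zmB pe pa a b c e f u v = true ↔
    (Lv (fun u v => pa u v = true) (dl a b) (dl a b c) u v ∨
      (Lv (fun u v => pe u v = true) (dl a b) (dl a b c) u v ∧ ¬ (u = e ∧ v = f))) := by
  unfold zmB Lv
  simp only [Bool.and_eq_true, Bool.or_eq_true, eqB_iff, Bool.not_eq_true',
    Bool.and_eq_false_iff, decide_eq_false_iff_not]
  tauto

theorem tB_iff (hpe : LtB pe n) (hpa : LtB pa n) {x x' y y' : ℕ} (hx : x < n) (hy : y < n) :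
    tB pe pa a b (List.range n) x x' y y' = true ↔
    AHT (Lv (fun u v => pe u v = true) (dl a b) (dl a b x))
      (Lv (fun u v => pa u v = true) (dl a b) (dl a b x)) x x' y y' := by
  unfold tB AHT
  rw [Bool.and_eq_true, decide_eq_true_eq, decide_eq_true_eq]
  have hz : ∀ u v, zB pe pa a b x u v = true → v < n := by
    intro u v h
    rcases zB_iff.1 h with h | h
    · exact (hpe _ _ h.1).2
    · exact (hpa _ _ h.1).2
  have hzm : ∀ e f u v, zmB pe pa a b x e f u v = true → v < n := by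
    intro e f u v h
    rcases zmB_iff.1 h with h | h
    · exact (hpa _ _ h.1).2
    · exact (hpe _ _ h.1.1).2
  have hq : ∀ u v, zqB pe pa a b (List.range n) x x x' u v = true ↔
      (Lv (fun u v => pa u v = true) (dl a b) (dl a b x) v u ∨
        (Lv (fun u v => pe u v = true) (dl a b) (dl a b x) v u ∧
        ReflTransGen (fun p q => Lv (fun u v => pa u v = true) (dl a b) (dl a b x) p q ∨
          (Lv (fun u v => pe u v = true) (dl a b) (dl a b x) p q ∧ ¬ (p = u ∧ q = v))) x x')) := by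
    intro u v
    unfold zqB
    rw [Bool.and_eq_true, Bool.and_eq_true, Bool.or_eq_true, Bool.and_eq_true, eqB_iff, eqB_iff,
      decide_eq_true_eq, td_reach_iff (hzm u v)]
    simp only [zmB_iff]
    unfold Lv
    tauto
  have hqn : ∀ u v, zqB pe pa a b (List.range n) x x x' u v = true → v < n := by
    intro u v h
    rcases (hq u v).1 h with h | h
    · exact (hpa _ _ h.1).1
    · exact (hpe _ _ h.1.1).1
  rw [td_reach_iff hz, td_reach_iff hqn]
  simp only [hq, zB_iff, hx, hy, true_and]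

theorem jumpB_iff {p1 p2 q1 q2 : ℕ} : jumpB pe pa qe qa a b p1 p2 q1 q2 = true ↔
    Jump (fun u v => pe u v = true) (fun u v => pa u v = true) (fun u v => qe u v = true)
      (fun u v => qa u v = true) (dl a b) p1 p2 q1 q2 := by
  unfold jumpB Jump
  simp only [Bool.and_eq_true, Bool.or_eq_true, ltB_iff, Bool.not_eq_true',
    Bool.and_eq_false_iff, decide_eq_false_iff_not, Bool.not_eq_false', Bool.not_eq_true]
  constructor
  · rintro ⟨⟨h1, h2⟩, ⟨h3, h4⟩, h5⟩
    refine ⟨h1, h2, h3, h4, ?_⟩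
    rintro ⟨h6, h7, h8, h9⟩
    rcases h5 with (h5 | h5) | (h5 | h5)
    · exact h5 h6
    · exact h5 h7
    · rw [h8] at h5; exact Bool.false_ne_true h5
    · rw [h9] at h5; exact Bool.false_ne_true h5
  · rintro ⟨h1, h2, h3, h4, h5⟩
    refine ⟨⟨h1, h2⟩, ⟨h3, h4⟩, ?_⟩
    by_cases h6 : p1 = q1
    · by_cases h7 : p2 = q2
      · right
        cases h8 : pa p1 p2
        · cases h9 : qa q1 q2
          · exact absurd ⟨h6, h7, h8, h9⟩ h5
          · exact Or.inr rfl
        · exact Or.inl rfl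
      · exact Or.inl (Or.inr h7)
    · exact Or.inl (Or.inl h6)

theorem mem_prs {z : ℕ × ℕ} : z ∈ prs (List.range n) ↔ z.1 < n ∧ z.2 < n := by
  unfold prs
  simp only [List.mem_flatMap, List.mem_map, List.mem_range]
  constructor
  · rintro ⟨p, hp, q, hq, rfl⟩
    exact ⟨hp, hq⟩
  · rintro ⟨h1, h2⟩
    exact ⟨z.1, h1, z.2, h2, rfl⟩

theorem stB_iff (hpe : LtB pe n) (hpa : LtB pa n) {z z' : ℕ × ℕ}
    (hz1 : z.1 < n) (hz2 : z.2 < n) :
    stB pe pa qe qa a b (List.range n) z z' = true ↔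
    St (fun u v => pe u v = true) (fun u v => pa u v = true) (fun u v => qe u v = true)
      (fun u v => qa u v = true) (dl a b) z z' := by
  unfold stB St levB
  simp only [Bool.and_eq_true, Bool.or_eq_true, ltB_iff, eqB_iff, decide_eq_true_eq,
    List.any_eq_true, List.mem_range, tB_iff hpe hpa hz1 hz2, jumpB_iff]
  refine or_congr_right (or_congr_right (and_congr_right fun hl => ?_))
  constructor
  · rintro ⟨p1, _, q1, _, h⟩
    exact ⟨p1, q1, h⟩
  · rintro ⟨p1, q1, h1, h2⟩
    refine ⟨p1, ?_, q1, ?_, h1, h2⟩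
    · rcases h2.2.2.1 with h | h
      · exact (hpe _ _ h).1
      · exact (hpa _ _ h).1
    · refine rtg_lt h1.2 (fun u v h => ?_) hz2
      rcases h with h | h
      · exact (hpa _ _ h.1).1
      · exact (hpe _ _ h.1.1).1

theorem coreB_iff (hpe : LtB pe n) (hpa : LtB pa n) (hqe : LtB qe n) (hqa : LtB qa n)
    (ok : Ok (fun u v => pe u v = true) (fun u v => pa u v = true) (fun u v => qe u v = true)
      (fun u v => qa u v = true) (dl a b)) {s t : ℕ} (hs : s < n) :
    coreB pe pa qe qa a b (List.range n) s t = true ↔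
    CF (fun u v => pe u v = true) (fun u v => pa u v = true) (fun u v => qe u v = true)
      (fun u v => qa u v = true) t s s := by
  have hst : ∀ z z' : ℕ × ℕ, z.1 < n → z.2 < n →
      St (fun u v => pe u v = true) (fun u v => pa u v = true) (fun u v => qe u v = true)
      (fun u v => qa u v = true) (dl a b) z z' → z'.1 < n ∧ z'.2 < n := by
    rintro z z' h1 h2 (h | h | h)
    · refine ⟨?_, by rw [h.2.1]; exact h2⟩
      rcases h.2.2 with h | h
      · exact (hpe _ _ h).2
      · exact (hpa _ _ h).2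
    · refine ⟨by rw [h.2.1]; exact h1, ?_⟩
      rcases h.2.2 with h | h
      · exact (hqe _ _ h).2
      · exact (hqa _ _ h).2
    · obtain ⟨_, p1, q1, _, hj⟩ := h
      refine ⟨?_, ?_⟩
      · rcases hj.2.2.1 with h | h
        · exact (hpe _ _ h).2
        · exact (hpa _ _ h).2
      · rcases hj.2.2.2.1 with h | h
        · exact (hqe _ _ h).2
        · exact (hqa _ _ h).2
  have hr : ∀ z : ℕ × ℕ, ReflTransGen (fun c d : ℕ × ℕ =>
      stB pe pa qe qa a b (List.range n) c d = true ∧ d ∈ prs (List.range n)) (s, s) z ↔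
      ReflTransGen (St (fun u v => pe u v = true) (fun u v => pa u v = true)
        (fun u v => qe u v = true) (fun u v => qa u v = true) (dl a b)) (s, s) z := by
    intro z
    constructor
    · intro h
      have key : ReflTransGen (St (fun u v => pe u v = true) (fun u v => pa u v = true)
        (fun u v => qe u v = true) (fun u v => qa u v = true) (dl a b)) (s, s) z ∧
        z.1 < n ∧ z.2 < n := by
        induction h with
        | refl => exact ⟨ReflTransGen.refl, hs, hs⟩
        | tail _ h ih =>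
          refine ⟨ih.1.tail ((stB_iff hpe hpa ih.2.1 ih.2.2).1 h.1), ?_⟩
          exact mem_prs.1 h.2
      exact key.1
    · intro h
      have key : ReflTransGen (fun c d : ℕ × ℕ =>
        stB pe pa qe qa a b (List.range n) c d = true ∧ d ∈ prs (List.range n)) (s, s) z ∧
        z.1 < n ∧ z.2 < n := by
        induction h with
        | refl => exact ⟨ReflTransGen.refl, hs, hs⟩
        | tail _ h ih =>
          have h2 := hst _ _ ih.2.1 ih.2.2 h
          exact ⟨ih.1.tail ⟨(stB_iff hpe hpa ih.2.1 ih.2.2).2 h, mem_prs.2 h2⟩, h2⟩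
      exact key.1
  rw [← core ok]
  unfold coreB
  rw [List.any_eq_true]
  constructor
  · rintro ⟨z, hz, h⟩
    rw [Bool.and_eq_true, decide_eq_true_eq, mem_reachG, hr] at h
    have hz' := mem_prs.1 hz
    refine ⟨z, ?_, h.2.2⟩
    have h1 := h.1
    unfold accB at h1
    rw [Bool.and_eq_true, eqB_iff, tB_iff hpe hpa hz'.1 hz'.2] at h1
    exact h1
  · rintro ⟨z, hz, h⟩
    have hz' : z.1 < n ∧ z.2 < n := by
      clear hz
      induction h with
      | refl => exact ⟨hs, hs⟩
      | tail _ h ih => exact hst _ _ ih.1 ih.2 h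
    refine ⟨z, mem_prs.2 hz', ?_⟩
    rw [Bool.and_eq_true, decide_eq_true_eq, mem_reachG, hr]
    refine ⟨?_, mem_prs.2 ⟨hs, hs⟩, h⟩
    unfold accB
    rw [Bool.and_eq_true, eqB_iff, tB_iff hpe hpa hz'.1 hz'.2]
    exact hz

end corr

end Pool.Agent.R538.MO
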