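import Pool.Agent.R538.MO.Alg

/-!
# The algorithm runs in polynomial time
-/

namespace Pool.Agent.R538.MO

open Relation Pool.Agent.NPC Pool.Agent.H614R2.DPO

attribute [local fun_prop] p2_poly_reachG
attribute [local irreducible] reachG

variable {α : Type} [TEnc α]

theorem poly_eqB {a b : α → ℕ → ℕ} {u v : α → ℕ}
    (ha : Poly (fun p : α × ℕ => a p.1 p.2)) (hb : Poly (fun p : α × ℕ => b p.1 p.2))
    (hu : Poly u) (hv : Poly v) : Poly (fun x => eqB (a x) (b x) (u x) (v x)) := by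
  unfold eqB
  fun_prop

theorem poly_ltB {a b : α → ℕ → ℕ} {u v : α → ℕ}
    (ha : Poly (fun p : α × ℕ => a p.1 p.2)) (hb : Poly (fun p : α × ℕ => b p.1 p.2))
    (hu : Poly u) (hv : Poly v) : Poly (fun x => ltB (a x) (b x) (u x) (v x)) := by
  unfold ltB
  fun_prop

attribute [local fun_prop] poly_eqB poly_ltB
attribute [local irreducible] eqB ltB

theorem poly_zB {pe pa : α → ℕ → ℕ → Bool} {a b : α → ℕ → ℕ} {c u v : α → ℕ}
    (hpe : Poly (fun p : α × ℕ × ℕ => pe p.1 p.2.1 p.2.2))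
    (hpa : Poly (fun p : α × ℕ × ℕ => pa p.1 p.2.1 p.2.2))
    (ha : Poly (fun p : α × ℕ => a p.1 p.2)) (hb : Poly (fun p : α × ℕ => b p.1 p.2))
    (hc : Poly c) (hu : Poly u) (hv : Poly v) :
    Poly (fun x => zB (pe x) (pa x) (a x) (b x) (c x) (u x) (v x)) := by
  unfold zB
  fun_prop

theorem poly_zmB {pe pa : α → ℕ → ℕ → Bool} {a b : α → ℕ → ℕ} {c e f u v : α → ℕ}
    (hpe : Poly (fun p : α × ℕ × ℕ => pe p.1 p.2.1 p.2.2))
    (hpa : Poly (fun p : α × ℕ × ℕ => pa p.1 p.2.1 p.2.2))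
    (ha : Poly (fun p : α × ℕ => a p.1 p.2)) (hb : Poly (fun p : α × ℕ => b p.1 p.2))
    (hc : Poly c) (he : Poly e) (hf : Poly f) (hu : Poly u) (hv : Poly v) :
    Poly (fun x => zmB (pe x) (pa x) (a x) (b x) (c x) (e x) (f x) (u x) (v x)) := by
  unfold zmB
  fun_prop

attribute [local fun_prop] poly_zB poly_zmB
attribute [local irreducible] zB zmB

theorem poly_zqB {pe pa : α → ℕ → ℕ → Bool} {a b : α → ℕ → ℕ} {R : α → List ℕ}
    {c x x' u v : α → ℕ}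
    (hpe : Poly (fun p : α × ℕ × ℕ => pe p.1 p.2.1 p.2.2))
    (hpa : Poly (fun p : α × ℕ × ℕ => pa p.1 p.2.1 p.2.2))
    (ha : Poly (fun p : α × ℕ => a p.1 p.2)) (hb : Poly (fun p : α × ℕ => b p.1 p.2))
    (hR : Poly R) (hc : Poly c) (hx : Poly x) (hx' : Poly x') (hu : Poly u) (hv : Poly v) :
    Poly (fun z => zqB (pe z) (pa z) (a z) (b z) (R z) (c z) (x z) (x' z) (u z) (v z)) := by
  unfold zqB
  fun_prop

attribute [local fun_prop] poly_zqB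
attribute [local irreducible] zqB

theorem poly_tB {pe pa : α → ℕ → ℕ → Bool} {a b : α → ℕ → ℕ} {R : α → List ℕ}
    {x x' y y' : α → ℕ}
    (hpe : Poly (fun p : α × ℕ × ℕ => pe p.1 p.2.1 p.2.2))
    (hpa : Poly (fun p : α × ℕ × ℕ => pa p.1 p.2.1 p.2.2))
    (ha : Poly (fun p : α × ℕ => a p.1 p.2)) (hb : Poly (fun p : α × ℕ => b p.1 p.2))
    (hR : Poly R) (hx : Poly x) (hx' : Poly x') (hy : Poly y) (hy' : Poly y') :
    Poly (fun z => tB (pe z) (pa z) (a z) (b z) (R z) (x z) (x' z) (y z) (y' z)) := by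
  unfold tB
  fun_prop

theorem poly_jumpB {pe pa qe qa : α → ℕ → ℕ → Bool} {a b : α → ℕ → ℕ}
    {p1 p2 q1 q2 : α → ℕ}
    (hpe : Poly (fun p : α × ℕ × ℕ => pe p.1 p.2.1 p.2.2))
    (hpa : Poly (fun p : α × ℕ × ℕ => pa p.1 p.2.1 p.2.2))
    (hqe : Poly (fun p : α × ℕ × ℕ => qe p.1 p.2.1 p.2.2))
    (hqa : Poly (fun p : α × ℕ × ℕ => qa p.1 p.2.1 p.2.2))
    (ha : Poly (fun p : α × ℕ => a p.1 p.2)) (hb : Poly (fun p : α × ℕ => b p.1 p.2))
    (hp1 : Poly p1) (hp2 : Poly p2) (hq1 : Poly q1) (hq2 : Poly q2) :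
    Poly (fun z => jumpB (pe z) (pa z) (qe z) (qa z) (a z) (b z) (p1 z) (p2 z) (q1 z)
      (q2 z)) := by
  unfold jumpB
  fun_prop

attribute [local fun_prop] poly_tB poly_jumpB
attribute [local irreducible] tB jumpB

theorem poly_levB {pe pa qe qa : α → ℕ → ℕ → Bool} {a b : α → ℕ → ℕ} {R : α → List ℕ}
    {p q p2 q2 : α → ℕ}
    (hpe : Poly (fun p : α × ℕ × ℕ => pe p.1 p.2.1 p.2.2))
    (hpa : Poly (fun p : α × ℕ × ℕ => pa p.1 p.2.1 p.2.2))
    (hqe : Poly (fun p : α × ℕ × ℕ => qe p.1 p.2.1 p.2.2))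
    (hqa : Poly (fun p : α × ℕ × ℕ => qa p.1 p.2.1 p.2.2))
    (ha : Poly (fun p : α × ℕ => a p.1 p.2)) (hb : Poly (fun p : α × ℕ => b p.1 p.2))
    (hR : Poly R) (hp : Poly p) (hq : Poly q) (hp2 : Poly p2) (hq2 : Poly q2) :
    Poly (fun z => levB (pe z) (pa z) (qe z) (qa z) (a z) (b z) (R z) (p z) (q z) (p2 z)
      (q2 z)) := by
  unfold levB
  fun_prop

attribute [local fun_prop] poly_levB
attribute [local irreducible] levB

theorem poly_stB {pe pa qe qa : α → ℕ → ℕ → Bool} {a b : α → ℕ → ℕ} {R : α → List ℕ}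
    {z z' : α → ℕ × ℕ}
    (hpe : Poly (fun p : α × ℕ × ℕ => pe p.1 p.2.1 p.2.2))
    (hpa : Poly (fun p : α × ℕ × ℕ => pa p.1 p.2.1 p.2.2))
    (hqe : Poly (fun p : α × ℕ × ℕ => qe p.1 p.2.1 p.2.2))
    (hqa : Poly (fun p : α × ℕ × ℕ => qa p.1 p.2.1 p.2.2))
    (ha : Poly (fun p : α × ℕ => a p.1 p.2)) (hb : Poly (fun p : α × ℕ => b p.1 p.2))
    (hR : Poly R) (hz : Poly z) (hz' : Poly z') :
    Poly (fun x => stB (pe x) (pa x) (qe x) (qa x) (a x) (b x) (R x) (z x) (z' x)) := by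
  unfold stB
  fun_prop

theorem poly_accB {pe pa : α → ℕ → ℕ → Bool} {a b : α → ℕ → ℕ} {R : α → List ℕ}
    {t : α → ℕ} {z : α → ℕ × ℕ}
    (hpe : Poly (fun p : α × ℕ × ℕ => pe p.1 p.2.1 p.2.2))
    (hpa : Poly (fun p : α × ℕ × ℕ => pa p.1 p.2.1 p.2.2))
    (ha : Poly (fun p : α × ℕ => a p.1 p.2)) (hb : Poly (fun p : α × ℕ => b p.1 p.2))
    (hR : Poly R) (ht : Poly t) (hz : Poly z) :
    Poly (fun x => accB (pe x) (pa x) (a x) (b x) (R x) (t x) (z x)) := by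
  unfold accB
  fun_prop

theorem poly_prs {R : α → List ℕ} (hR : Poly R) : Poly (fun x => prs (R x)) := by
  unfold prs
  fun_prop

attribute [local fun_prop] poly_stB poly_accB poly_prs
attribute [local irreducible] stB accB prs

theorem poly_coreB {pe pa qe qa : α → ℕ → ℕ → Bool} {a b : α → ℕ → ℕ} {R : α → List ℕ}
    {s t : α → ℕ}
    (hpe : Poly (fun p : α × ℕ × ℕ => pe p.1 p.2.1 p.2.2))
    (hpa : Poly (fun p : α × ℕ × ℕ => pa p.1 p.2.1 p.2.2))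
    (hqe : Poly (fun p : α × ℕ × ℕ => qe p.1 p.2.1 p.2.2))
    (hqa : Poly (fun p : α × ℕ × ℕ => qa p.1 p.2.1 p.2.2))
    (ha : Poly (fun p : α × ℕ => a p.1 p.2)) (hb : Poly (fun p : α × ℕ => b p.1 p.2))
    (hR : Poly R) (hs : Poly s) (ht : Poly t) :
    Poly (fun x => coreB (pe x) (pa x) (qe x) (qa x) (a x) (b x) (R x) (s x) (t x)) := by
  unfold coreB
  fun_prop

end Pool.Agent.R538.MO
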