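import Pool.Agent.R538.MO.Defs
import Pool.Agent.R538.MO.AH

/-!
# Distances and tight walks
-/

namespace Pool.Agent.R538.MO

open Relation Pool.Agent.NPC Pool.Agent.H614R2.DPO

/-- tight steps for the potential `f`; edges only in the directions of `O` -/
def TS (wE wA : ℕ → ℕ → Option ℕ) (O : ℕ → ℕ → Prop) (f : ℕ → ℕ) (u v : ℕ) : Prop :=
  (O u v ∧ ∃ c, wE u v = some c ∧ f v = f u + c) ∨ ∃ c, wA u v = some c ∧ f v = f u + c

/-- a relation on `Fin n`, on natural numbers -/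
def up {n : ℕ} (O : Fin n → Fin n → Prop) (u v : ℕ) : Prop :=
  ∃ (hu : u < n) (hv : v < n), O ⟨u, hu⟩ ⟨v, hv⟩

/-- the relation between the graph and the numbers -/
structure Rel {n : ℕ} (G : SimpleGraph (Fin n)) (A : Fin n → Fin n → Prop)
    (lE : Sym2 (Fin n) → ℚ) (lA : Fin n → Fin n → ℚ) (wE wA : ℕ → ℕ → Option ℕ) (D : ℚ) :
    Prop where
  pos : 0 < D
  e1 : ∀ u v : Fin n, G.Adj u v → ∃ c : ℕ, wE u v = some c ∧ (c : ℚ) = lE s(u, v) * D
  a1 : ∀ u v : Fin n, A u v → ∃ c : ℕ, wA u v = some c ∧ (c : ℚ) = lA u v * D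
  e2 : ∀ u v : ℕ, wE u v ≠ none → ∃ (hu : u < n) (hv : v < n), G.Adj ⟨u, hu⟩ ⟨v, hv⟩
  a2 : ∀ u v : ℕ, wA u v ≠ none → ∃ (hu : u < n) (hv : v < n), A ⟨u, hu⟩ ⟨v, hv⟩

/-- potentials -/
structure Pot (wE wA : ℕ → ℕ → Option ℕ) (f : ℕ → ℕ) (s : ℕ) : Prop where
  zero : f s = 0
  e : ∀ u v c, wE u v = some c → f v ≤ f u + c
  a : ∀ u v c, wA u v = some c → f v ≤ f u + c

variable {n : ℕ} {G : SimpleGraph (Fin n)} {A : Fin n → Fin n → Prop}
    {lE : Sym2 (Fin n) → ℚ} {lA : Fin n → Fin n → ℚ} {wE wA : ℕ → ℕ → Option ℕ} {D : ℚ}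
    {O : Fin n → Fin n → Prop} {f : ℕ → ℕ}

theorem MPath.tight (hr : Rel G A lE lA wE wA D) (hO : ∀ u v, O u v → G.Adj u v)
    (hfe : ∀ u v c, wE u v = some c → f v ≤ f u + c)
    (hfa : ∀ u v c, wA u v = some c → f v ≤ f u + c) {u v : Fin n} {l : List (Fin n)} {r : ℚ}
    (h : MPath O A lE lA u v l r) : ∃ c : ℕ, (c : ℚ) = r * D ∧ f v ≤ f u + c ∧
      (f u + c ≤ f v → ReflTransGen (TS wE wA (up O) f) u v) := by
  induction h with
  | nil v => exact ⟨0, by simp, le_rfl, fun _ => ReflTransGen.refl⟩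
  | @edge u v x l r h1 h2 h3 ih =>
    obtain ⟨c, hc1, hc2, hc3⟩ := ih
    obtain ⟨d, hd1, hd2⟩ := hr.e1 _ _ (hO _ _ h1)
    have h4 := hfe _ _ _ hd1
    refine ⟨d + c, ?_, ?_, ?_⟩
    · push_cast
      rw [hc1, hd2]
      ring
    · omega
    · intro h5
      exact ReflTransGen.head (Or.inl ⟨⟨u.2, v.2, h1⟩, d, hd1, by omega⟩) (hc3 (by omega))
  | @arc u v x l r h1 h2 h3 ih =>
    obtain ⟨c, hc1, hc2, hc3⟩ := ih
    obtain ⟨d, hd1, hd2⟩ := hr.a1 _ _ h1
    have h4 := hfa _ _ _ hd1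
    refine ⟨d + c, ?_, ?_, ?_⟩
    · push_cast
      rw [hc1, hd2]
      ring
    · omega
    · intro h5
      exact ReflTransGen.head (Or.inr ⟨d, hd1, by omega⟩) (hc3 (by omega))

theorem MPath.reach (hr : Rel G A lE lA wE wA D) (hO : ∀ u v, O u v → G.Adj u v)
    {u v : Fin n} {l : List (Fin n)} {r : ℚ} (h : MPath O A lE lA u v l r) :
    ReflTransGen (fun u v => wE u v ≠ none ∨ wA u v ≠ none) (u : ℕ) v := by
  induction h with
  | nil v => exact ReflTransGen.refl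
  | @edge u v x l r h1 h2 h3 ih =>
    obtain ⟨d, hd1, hd2⟩ := hr.e1 _ _ (hO _ _ h1)
    exact ReflTransGen.head (Or.inl (by rw [hd1]; simp)) ih
  | @arc u v x l r h1 h2 h3 ih =>
    obtain ⟨d, hd1, hd2⟩ := hr.a1 _ _ h1
    exact ReflTransGen.head (Or.inr (by rw [hd1]; simp)) ih

theorem MPath.nonneg {V : Type} {O A : V → V → Prop} {lE : Sym2 V → ℚ} {lA : V → V → ℚ}
    (hE : ∀ u v, O u v → 0 ≤ lE s(u, v)) (hA : ∀ u v, A u v → 0 ≤ lA u v) {u v : V}
    {l : List V} {r : ℚ} (h : MPath O A lE lA u v l r) : 0 ≤ r := by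
  induction h with
  | nil v => exact le_rfl
  | edge h1 _ _ ih => exact add_nonneg (hE _ _ h1) ih
  | arc h1 _ _ ih => exact add_nonneg (hA _ _ h1) ih

theorem MPath.sub {V : Type} {O A : V → V → Prop} {lE : Sym2 V → ℚ} {lA : V → V → ℚ}
    (hE : ∀ u v, O u v → 0 ≤ lE s(u, v)) (hA : ∀ u v, A u v → 0 ≤ lA u v) {u v x : V}
    {l : List V} {r : ℚ} (h : MPath O A lE lA u v l r) (hx : x ∈ l) :
    ∃ l' r', MPath O A lE lA x v l' r' ∧ r' ≤ r := by
  induction h with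
  | nil v =>
    rw [List.mem_singleton.1 hx]
    exact ⟨_, _, MPath.nil v, le_rfl⟩
  | @edge u v y l r h1 h2 h3 ih =>
    rcases List.mem_cons.1 hx with rfl | hx
    · exact ⟨_, _, MPath.edge h1 h2 h3, le_rfl⟩
    · obtain ⟨l', r', h4, h5⟩ := ih hx
      exact ⟨l', r', h4, h5.trans (le_add_of_nonneg_left (hE _ _ h1))⟩
  | @arc u v y l r h1 h2 h3 ih =>
    rcases List.mem_cons.1 hx with rfl | hx
    · exact ⟨_, _, MPath.arc h1 h2 h3, le_rfl⟩
    · obtain ⟨l', r', h4, h5⟩ := ih hx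
      exact ⟨l', r', h4, h5.trans (le_add_of_nonneg_left (hA _ _ h1))⟩

theorem path_of_tight (hr : Rel G A lE lA wE wA D)
    (hE : ∀ u v, O u v → 0 ≤ lE s(u, v)) (hA : ∀ u v, A u v → 0 ≤ lA u v)
    {x y : ℕ} (h : ReflTransGen (TS wE wA (up O) f) x y) (hO : ∀ u v, O u v → G.Adj u v)
    (hy : y < n) :
    ∃ (hx : x < n) (l : List (Fin n)) (r : ℚ), MPath O A lE lA ⟨x, hx⟩ ⟨y, hy⟩ l r ∧
      r * D + f x ≤ f y := by
  induction h using ReflTransGen.head_induction_on with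
  | refl => exact ⟨hy, _, _, MPath.nil _, by simp⟩
  | @head u v h1 _ ih =>
    obtain ⟨hv, l, r, h2, h3⟩ := ih
    rcases h1 with ⟨⟨hu, _, h1⟩, c, hc, hfc⟩ | ⟨c, hc, hfc⟩
    · obtain ⟨d, hd1, hd2⟩ := hr.e1 _ _ (hO _ _ h1)
      have hdc : d = c := by
        have : some d = some c := by rw [← hd1, ← hc]
        exact Option.some.inj this
      subst hdc
      have h4 := hE _ _ h1
      have h5 : (lE s(⟨u, hu⟩, ⟨v, hv⟩) + r) * D + f u ≤ f y := by
        rw [add_mul, ← hd2]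
        rw [hfc] at h3
        push_cast at h3
        linarith
      refine ⟨hu, ?_⟩
      by_cases hm : (⟨u, hu⟩ : Fin n) ∈ l
      · obtain ⟨l', r', h6, h7⟩ := h2.sub hE hA hm
        refine ⟨l', r', h6, le_trans ?_ h5⟩
        have := mul_le_mul_of_nonneg_right (h7.trans (le_add_of_nonneg_left h4)) hr.pos.le
        linarith
      · exact ⟨_, _, MPath.edge h1 hm h2, h5⟩
    · obtain ⟨hu, _, h1⟩ := hr.a2 u v (by rw [hc]; simp)
      obtain ⟨d, hd1, hd2⟩ := hr.a1 _ _ h1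
      have hdc : d = c := by
        have : some d = some c := by rw [← hd1, ← hc]
        exact Option.some.inj this
      subst hdc
      have h4 := hA _ _ h1
      have h5 : (lA ⟨u, hu⟩ ⟨v, hv⟩ + r) * D + f u ≤ f y := by
        rw [add_mul, ← hd2]
        rw [hfc] at h3
        push_cast at h3
        linarith
      refine ⟨hu, ?_⟩
      by_cases hm : (⟨u, hu⟩ : Fin n) ∈ l
      · obtain ⟨l', r', h6, h7⟩ := h2.sub hE hA hm
        refine ⟨l', r', h6, le_trans ?_ h5⟩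
        have := mul_le_mul_of_nonneg_right (h7.trans (le_add_of_nonneg_left h4)) hr.pos.le
        linarith
      · exact ⟨_, _, MPath.arc h1 hm h2, h5⟩

section dist

variable {s t : Fin n}

theorem mdist_ge (hr : Rel G A lE lA wE wA D) (hO : ∀ u v, O u v → G.Adj u v)
    (hf : Pot wE wA f s) {m : ℕ} (hm : ∀ c : ℕ, f t ≤ c →
      (c ≤ f t → ReflTransGen (TS wE wA (up O) f) s t) → m ≤ c) :
    ((((m : ℚ) / D : ℚ) : ℝ) : EReal) ≤ mdist O A lE lA s t := by
  unfold mdist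
  refine le_iInf fun l => le_iInf₂ fun r h => ?_
  obtain ⟨c, hc1, hc2, hc3⟩ := h.tight hr hO hf.e hf.a
  rw [hf.zero, Nat.zero_add] at hc2 hc3
  have h1 := hm c hc2 hc3
  have h2 : (m : ℚ) / D ≤ r := by
    rw [div_le_iff₀ hr.pos, ← hc1]
    exact_mod_cast h1
  exact_mod_cast h2

theorem mdist_eq (hr : Rel G A lE lA wE wA D) (hO : ∀ u v, O u v → G.Adj u v)
    (hE : ∀ u v, O u v → 0 ≤ lE s(u, v)) (hA : ∀ u v, A u v → 0 ≤ lA u v)
    (hf : Pot wE wA f s) (h : ReflTransGen (TS wE wA (up O) f) s t) :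
    mdist O A lE lA s t = ((((f t : ℚ) / D : ℚ) : ℝ) : EReal) := by
  apply le_antisymm
  · obtain ⟨_, l, r, h1, h2⟩ := path_of_tight hr hE hA h hO t.2
    rw [hf.zero] at h2
    have h3 : r ≤ (f t : ℚ) / D := by
      rw [le_div_iff₀ hr.pos]
      push_cast at h2
      linarith
    unfold mdist
    refine (iInf_le_of_le l (iInf₂_le r h1)).trans ?_
    exact_mod_cast h3
  · exact mdist_ge hr hO hf fun c hc _ => hc

theorem mdist_top (hr : Rel G A lE lA wE wA D) (hO : ∀ u v, O u v → G.Adj u v)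
    (h : ¬ ReflTransGen (fun u v => wE u v ≠ none ∨ wA u v ≠ none) (s : ℕ) t) :
    mdist O A lE lA s t = ⊤ := by
  unfold mdist
  rw [iInf_eq_top]
  intro l
  rw [iInf₂_eq_top]
  intro r h1
  exact absurd (h1.reach hr hO) h

/-- The distance from `s` to `t` is preserved if and only if `t` cannot be reached or there is a
tight walk. -/
theorem dist_iff (hr : Rel G A lE lA wE wA D) (hO : ∀ u v, O u v → G.Adj u v)
    (hE : ∀ u v, G.Adj u v → 0 ≤ lE s(u, v)) (hA : ∀ u v, A u v → 0 ≤ lA u v)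
    (hf : Pot wE wA f s)
    (hreach : ReflTransGen (fun u v => wE u v ≠ none ∨ wA u v ≠ none) (s : ℕ) t →
      ReflTransGen (TS wE wA (fun _ _ => True) f) s t) :
    mdist O A lE lA s t = mdist G.Adj A lE lA s t ↔
      (ReflTransGen (fun u v => wE u v ≠ none ∨ wA u v ≠ none) (s : ℕ) t →
        ReflTransGen (TS wE wA (up O) f) s t) := by
  by_cases h : ReflTransGen (fun u v => wE u v ≠ none ∨ wA u v ≠ none) (s : ℕ) t
  · have h1 : ReflTransGen (TS wE wA (up G.Adj) f) s t := by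
      refine rmono (hreach h) fun u v h => ?_
      rcases h with ⟨_, c, hc, hfc⟩ | h
      · exact Or.inl ⟨hr.e2 u v (by rw [hc]; simp), c, hc, hfc⟩
      · exact Or.inr h
    rw [mdist_eq hr (fun _ _ h => h) hE hA hf h1]
    constructor
    · intro h2 _
      by_contra h3
      have h4 : (((((f t + 1 : ℕ) : ℚ) / D : ℚ) : ℝ) : EReal) ≤ mdist O A lE lA s t := by
        refine mdist_ge hr hO hf fun c hc1 hc2 => ?_
        by_contra h4
        exact h3 (hc2 (by omega))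
      rw [h2] at h4
      have h5 : (((f t + 1 : ℕ) : ℚ) / D) ≤ (f t : ℚ) / D := by exact_mod_cast h4
      rw [div_le_div_iff_of_pos_right hr.pos] at h5
      have h6 : f t + 1 ≤ f t := by exact_mod_cast h5
      omega
    · intro h2
      exact mdist_eq hr hO (fun u v h => hE u v (hO u v h)) hA hf (h2 h)
  · rw [mdist_top hr hO h, mdist_top hr (fun _ _ h => h) h]
    exact ⟨fun _ h' => absurd h' h, fun _ => rfl⟩

end dist

/-- an antisymmetric relation extends to an orientation -/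
theorem extend (G : SimpleGraph (Fin n)) {C : ℕ → ℕ → Prop} (hC : ∀ u v, C u v → ¬ C v u) :
    ∃ O : Fin n → Fin n → Prop, IsOrientation G O ∧
      ∀ u v : Fin n, G.Adj u v → C u v → O u v := by
  refine ⟨fun u v => G.Adj u v ∧ (C u v ∨ (¬ C v u ∧ u < v)), ⟨fun u v h => h.1, ?_⟩,
    fun u v h h' => ⟨h, Or.inl h'⟩⟩
  intro u v h
  have hne : u ≠ v := h.ne
  have h' := h.symm
  have hO := hC u v
  by_cases h3 : C u v
  · left
    exact ⟨⟨h, Or.inl h3⟩, fun h4 => h4.2.elim (fun h5 => hO h3 h5) (fun h5 => h5.1 h3)⟩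
  · by_cases h4 : C v u
    · right
      exact ⟨⟨h', Or.inl h4⟩, fun h5 => h5.2.elim h3 (fun h6 => h6.1 h4)⟩
    · rcases lt_or_gt_of_ne hne with h5 | h5
      · left
        exact ⟨⟨h, Or.inr ⟨h4, h5⟩⟩, fun h6 => h6.2.elim h4 (fun h7 =>
          absurd h7.2 (not_lt.mpr h5.le))⟩
      · right
        exact ⟨⟨h', Or.inr ⟨h3, h5⟩⟩, fun h6 => h6.2.elim h3 (fun h7 =>
          absurd h7.2 (not_lt.mpr h5.le))⟩

end Pool.Agent.R538.MO
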