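import Pool.Agent.R538.MO.AH

/-!
# The product graph

`P`-steps and `Q`-steps (the second walk is given backwards, so that both walks go upwards in
the potential `δ`). Inside a level of `δ` both kinds of steps are the reverses of each other.
-/

namespace Pool.Agent.R538.MO

open Relation

variable {V : Type}

/-- the hypotheses -/
structure Ok (PE PA QE QA : V → V → Prop) (δ : V → ℤ) : Prop where
  pe : ∀ u v, PE u v → δ u ≤ δ v
  pa : ∀ u v, PA u v → δ u ≤ δ v
  qe : ∀ u v, QE u v → δ u ≤ δ v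
  qa : ∀ u v, QA u v → δ u ≤ δ v
  lvE : ∀ u v, δ u = δ v → (PE u v ↔ QE v u)
  lvA : ∀ u v, δ u = δ v → (PA u v ↔ QA v u)

/-- steps inside a level -/
def Lv (P : V → V → Prop) (δ : V → ℤ) (c : ℤ) (u v : V) : Prop := P u v ∧ δ u = c ∧ δ v = c

/-- the two walks leave a level at the same time -/
def Jump (PE PA QE QA : V → V → Prop) (δ : V → ℤ) (p1 p2 q1 q2 : V) : Prop :=
  δ p1 < δ p2 ∧ δ q1 < δ q2 ∧ (PE p1 p2 ∨ PA p1 p2) ∧ (QE q1 q2 ∨ QA q1 q2) ∧
    ¬ (p1 = q1 ∧ p2 = q2 ∧ ¬ PA p1 p2 ∧ ¬ QA q1 q2)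

/-- the steps of the product graph -/
def St (PE PA QE QA : V → V → Prop) (δ : V → ℤ) (z z' : V × V) : Prop :=
  (δ z.1 < δ z.2 ∧ z'.2 = z.2 ∧ (PE z.1 z'.1 ∨ PA z.1 z'.1)) ∨
  (δ z.2 < δ z.1 ∧ z'.1 = z.1 ∧ (QE z.2 z'.2 ∨ QA z.2 z'.2)) ∨
  (δ z.2 = δ z.1 ∧ ∃ p1 q1, AHT (Lv PE δ (δ z.1)) (Lv PA δ (δ z.1)) z.1 p1 z.2 q1 ∧
    Jump PE PA QE QA δ p1 z'.1 q1 z'.2)

/-- the accepting nodes of the product graph -/
def Acc (PE PA : V → V → Prop) (δ : V → ℤ) (t : V) (z : V × V) : Prop :=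
  δ z.2 = δ z.1 ∧ AHT (Lv PE δ (δ z.1)) (Lv PA δ (δ z.1)) z.1 t z.2 t

/-- two walks without conflicts -/
def CF (PE PA QE QA : V → V → Prop) (t p q : V) : Prop :=
  ∃ U W : V → V → Prop, (∀ u v, U u v → ¬ W u v) ∧
    ReflTransGen (fun u v => (U u v ∧ PE u v) ∨ PA u v) p t ∧
    ReflTransGen (fun u v => (W u v ∧ QE u v) ∨ QA u v) q t

theorem lv_const {R : V → V → Prop} {δ : V → ℤ} {c : ℤ} {x y : V}
    (h : ReflTransGen R x y) (hR : ∀ u v, R u v → δ u = c ∧ δ v = c) (hx : δ x = c) :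
    δ y = c := by
  cases h with
  | refl => exact hx
  | tail _ h => exact (hR _ _ h).2

variable {PE PA QE QA : V → V → Prop} {δ : V → ℤ} {t : V}

/-- soundness, with information on the levels of the edges -/
theorem sound (ok : Ok PE PA QE QA δ) {z z' : V × V}
    (h : ReflTransGen (St PE PA QE QA δ) z z') (hz : Acc PE PA δ t z') :
    ∃ U W : V → V → Prop, (∀ u v, U u v → ¬ W u v) ∧
    ReflTransGen (fun u v => (U u v ∧ PE u v) ∨ PA u v) z.1 t ∧
    ReflTransGen (fun u v => (W u v ∧ QE u v) ∨ QA u v) z.2 t ∧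
    (∀ u v, U u v → δ z.1 ≤ δ u) ∧ (∀ u v, W u v → δ z.2 ≤ δ u) := by
  induction h using ReflTransGen.head_induction_on with
  | refl =>
    obtain ⟨hl, hT⟩ := hz
    obtain ⟨U, W, hUW, h1, h2⟩ := aht_mp hT
    refine ⟨fun u v => U u v ∧ δ u = δ z'.1, fun u v => W u v ∧ δ u = δ z'.1,
      fun u v h h' => hUW _ _ h.1 h'.1, ?_, ?_, fun u v h => h.2.ge, fun u v h => ?_⟩
    · refine rmono h1 fun u v h => ?_
      rcases h with h | h
      · exact Or.inl ⟨⟨h.1, h.2.2.1⟩, h.2.1⟩
      · exact Or.inr h.1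
    · refine rmono h2 fun u v h => ?_
      rcases h with h | h
      · refine Or.inl ⟨⟨h.1, h.2.2.2⟩, ?_⟩
        exact (ok.lvE v u (by rw [h.2.2.1, h.2.2.2])).1 h.2.1
      · refine Or.inr ?_
        exact (ok.lvA v u (by rw [h.2.1, h.2.2])).1 h.1
    · rw [hl, h.2]
  | @head a c hac _ ih =>
    obtain ⟨U, W, hUW, h1, h2, hU, hW⟩ := ih
    rcases hac with ⟨hlt, h2c, hst⟩ | ⟨hlt, h1c, hst⟩ | ⟨heq, p1, q1, hT, hJ⟩
    · -- the first walk moves
      have hle : δ a.1 ≤ δ c.1 := hst.elim (ok.pe _ _) (ok.pa _ _)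
      refine ⟨fun u v => U u v ∨ (u = a.1 ∧ v = c.1), W, ?_, ?_, ?_, ?_, ?_⟩
      · rintro u v (h | ⟨rfl, rfl⟩) h'
        · exact hUW _ _ h h'
        · have := hW _ _ h'
          rw [h2c] at this
          omega
      · refine ReflTransGen.head (b := c.1) ?_ (rmono h1 fun u v h => ?_)
        · rcases hst with h | h
          · exact Or.inl ⟨Or.inr ⟨rfl, rfl⟩, h⟩
          · exact Or.inr h
        · exact h.imp (fun h => ⟨Or.inl h.1, h.2⟩) (fun h => h)
      · rw [← h2c]; exact h2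
      · rintro u v (h | ⟨rfl, rfl⟩)
        · exact hle.trans (hU _ _ h)
        · exact le_rfl
      · intro u v h
        rw [← h2c]
        exact hW _ _ h
    · -- the second walk moves
      have hle : δ a.2 ≤ δ c.2 := hst.elim (ok.qe _ _) (ok.qa _ _)
      refine ⟨U, fun u v => W u v ∨ (u = a.2 ∧ v = c.2), ?_, ?_, ?_, ?_, ?_⟩
      · rintro u v h (h' | ⟨rfl, rfl⟩)
        · exact hUW _ _ h h'
        · have := hU _ _ h
          rw [h1c] at this
          omega
      · rw [← h1c]; exact h1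
      · refine ReflTransGen.head (b := c.2) ?_ (rmono h2 fun u v h => ?_)
        · rcases hst with h | h
          · exact Or.inl ⟨Or.inr ⟨rfl, rfl⟩, h⟩
          · exact Or.inr h
        · exact h.imp (fun h => ⟨Or.inl h.1, h.2⟩) (fun h => h)
      · intro u v h
        rw [← h1c]
        exact hU _ _ h
      · rintro u v (h | ⟨rfl, rfl⟩)
        · exact hle.trans (hW _ _ h)
        · exact le_rfl
    · -- both walks pass a level
      obtain ⟨U0, W0, hUW0, h3, h4⟩ := aht_mp hT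
      obtain ⟨hj1, hj2, hj3, hj4, hj5⟩ := hJ
      have hp1 : δ p1 = δ a.1 := by
        refine lv_const (R := fun u v => (U0 u v ∧ Lv PE δ (δ a.1) u v) ∨ Lv PA δ (δ a.1) u v)
          h3 (fun u v h => ?_) rfl
        exact h.elim (fun h => h.2.2) (fun h => h.2)
      have hq1 : δ q1 = δ a.1 := by
        refine lv_const (R := fun u v => (W0 u v ∧ Lv PE δ (δ a.1) v u) ∨ Lv PA δ (δ a.1) v u)
          h4 (fun u v h => ?_) heq
        exact h.elim (fun h => ⟨h.2.2.2, h.2.2.1⟩) (fun h => ⟨h.2.2, h.2.1⟩)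
      refine ⟨fun u v => (U0 u v ∧ δ u = δ a.1 ∧ δ v = δ a.1) ∨
          ((u = p1 ∧ v = c.1 ∧ ¬ PA p1 c.1) ∨ U u v),
        fun u v => (W0 u v ∧ δ u = δ a.1 ∧ δ v = δ a.1) ∨
          ((u = q1 ∧ v = c.2 ∧ ¬ QA q1 c.2) ∨ W u v), ?_, ?_, ?_, ?_, ?_⟩
      · rintro u v (h | h | h) (h' | h' | h')
        · exact hUW0 _ _ h.1 h'.1
        · have := h.2.2
          rw [h'.2.1] at this
          omega
        · have := hW _ _ h'
          omega
        · have := h'.2.2
          rw [h.2.1] at this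
          omega
        · exact hj5 ⟨h.1.symm.trans h'.1, h.2.1.symm.trans h'.2.1, h.2.2, h'.2.2⟩
        · have := hW _ _ h'
          rw [h.1] at this
          omega
        · have := hU _ _ h
          omega
        · have := hU _ _ h
          rw [h'.1] at this
          omega
        · exact hUW _ _ h h'
      · refine ReflTransGen.trans (b := p1) (rmono h3 fun u v h => ?_) ?_
        · rcases h with h | h
          · exact Or.inl ⟨Or.inl ⟨h.1, h.2.2.1, h.2.2.2⟩, h.2.1⟩
          · exact Or.inr h.1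
        · refine ReflTransGen.head (b := c.1) ?_ (rmono h1 fun u v h => ?_)
          · by_cases h : PA p1 c.1
            · exact Or.inr h
            · exact Or.inl ⟨Or.inr (Or.inl ⟨rfl, rfl, h⟩), hj3.resolve_right h⟩
          · exact h.imp (fun h => ⟨Or.inr (Or.inr h.1), h.2⟩) (fun h => h)
      · refine ReflTransGen.trans (b := q1) (rmono h4 fun u v h => ?_) ?_
        · rcases h with h | h
          · refine Or.inl ⟨Or.inl ⟨h.1, h.2.2.2, h.2.2.1⟩, ?_⟩
            exact (ok.lvE v u (by rw [h.2.2.1, h.2.2.2])).1 h.2.1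
          · refine Or.inr ?_
            exact (ok.lvA v u (by rw [h.2.1, h.2.2])).1 h.1
        · refine ReflTransGen.head (b := c.2) ?_ (rmono h2 fun u v h => ?_)
          · by_cases h : QA q1 c.2
            · exact Or.inr h
            · exact Or.inl ⟨Or.inr (Or.inl ⟨rfl, rfl, h⟩), hj4.resolve_right h⟩
          · exact h.imp (fun h => ⟨Or.inr (Or.inr h.1), h.2⟩) (fun h => h)
      · rintro u v (h | h | h)
        · exact h.2.1.ge
        · rw [h.1, hp1]
        · have := hU _ _ h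
          omega
      · rintro u v (h | h | h)
        · rw [heq]; exact h.2.1.ge
        · rw [h.1, hq1, heq]
        · have := hW _ _ h
          omega

/-- a walk splits at the end of its first level -/
theorem split {R : V → V → Prop} (hR : ∀ u v, R u v → δ u ≤ δ v) {k : ℕ} {x y : V}
    (h : Stp R k x y) :
    ReflTransGen (fun u v => R u v ∧ δ u = δ x ∧ δ v = δ x) x y ∨
    ∃ x1 x2 k', k' < k ∧ ReflTransGen (fun u v => R u v ∧ δ u = δ x ∧ δ v = δ x) x x1 ∧
      R x1 x2 ∧ δ x1 = δ x ∧ δ x < δ x2 ∧ Stp R k' x2 y := by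
  induction h with
  | nil x => exact Or.inl ReflTransGen.refl
  | @cons k x y z h1 h2 ih =>
    rcases (hR _ _ h1).lt_or_eq with hlt | heq
    · exact Or.inr ⟨x, y, k, Nat.lt_succ_self _, ReflTransGen.refl, h1, rfl, hlt, h2⟩
    · rw [← heq] at ih
      rcases ih with ih | ⟨x1, x2, k', hk, h3, h4, h5, h6, h7⟩
      · exact Or.inl (ReflTransGen.head ⟨h1, rfl, heq.symm⟩ ih)
      · exact Or.inr ⟨x1, x2, k', Nat.lt_succ_of_lt hk,
          ReflTransGen.head ⟨h1, rfl, heq.symm⟩ h3, h4, h5, h6, h7⟩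

theorem stp_le {R : V → V → Prop} (hR : ∀ u v, R u v → δ u ≤ δ v) {k : ℕ} {x y : V}
    (h : Stp R k x y) : δ x ≤ δ y := by
  induction h with
  | nil x => exact le_rfl
  | cons h1 _ ih => exact (hR _ _ h1).trans ih

theorem complete (ok : Ok PE PA QE QA δ) {U W : V → V → Prop} (hUW : ∀ u v, U u v → ¬ W u v) :
    ∀ (m : ℕ) {k l : ℕ} {p q : V}, k + l ≤ m →
      Stp (fun u v => (U u v ∧ PE u v) ∨ PA u v) k p t →
      Stp (fun u v => (W u v ∧ QE u v) ∨ QA u v) l q t →
      ∃ z, Acc PE PA δ t z ∧ ReflTransGen (St PE PA QE QA δ) (p, q) z := by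
  have hP : ∀ u v, ((U u v ∧ PE u v) ∨ PA u v) → δ u ≤ δ v := fun u v h =>
    h.elim (fun h => ok.pe _ _ h.2) (ok.pa _ _)
  have hQ : ∀ u v, ((W u v ∧ QE u v) ∨ QA u v) → δ u ≤ δ v := fun u v h =>
    h.elim (fun h => ok.qe _ _ h.2) (ok.qa _ _)
  intro m
  induction m using Nat.strong_induction_on with
  | _ m ih =>
    intro k l p q hm h1 h2
    have hpt := stp_le hP h1
    have hqt := stp_le hQ h2
    rcases lt_trichotomy (δ p) (δ q) with hlt | heq | hlt
    · cases h1 with
      | nil => exact absurd hlt (not_lt.2 hqt)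
      | @cons k _ y _ h3 h4 =>
        obtain ⟨z, hz, h5⟩ := ih (k + l) (by omega) le_rfl h4 h2
        have h6 : St PE PA QE QA δ (p, q) (y, q) :=
          Or.inl ⟨hlt, rfl, h3.imp (fun h => h.2) (fun h => h)⟩
        exact ⟨z, hz, ReflTransGen.head h6 h5⟩
    · -- the steps of the level
      have hA : ∀ {p1 q1 : V}, ReflTransGen (fun u v => ((U u v ∧ PE u v) ∨ PA u v) ∧
          δ u = δ p ∧ δ v = δ p) p p1 →
          ReflTransGen (fun u v => ((W u v ∧ QE u v) ∨ QA u v) ∧ δ u = δ q ∧ δ v = δ q) q q1 →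
          AHT (Lv PE δ (δ p)) (Lv PA δ (δ p)) p p1 q q1 := by
        intro p1 q1 h3 h4
        refine aht_mpr hUW (rmono h3 fun u v h => ?_) (rmono h4 fun u v h => ?_)
        · rcases h with ⟨h | h, h5⟩
          · exact Or.inl ⟨h.1, h.2, h5⟩
          · exact Or.inr ⟨h, h5⟩
        · rw [← heq] at h
          rcases h with ⟨h | h, h5, h6⟩
          · exact Or.inl ⟨h.1, (ok.lvE v u (by rw [h5, h6])).2 h.2, h6, h5⟩
          · exact Or.inr ⟨(ok.lvA v u (by rw [h5, h6])).2 h, h6, h5⟩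
      rcases split hP h1 with h3 | ⟨p1, p2, k', hk, h3, h4, h5, h6, h7⟩
      · rcases split hQ h2 with h3' | ⟨q1, q2, l', hl, h3', h4', h5', h6', h7'⟩
        · exact ⟨(p, q), ⟨heq.symm, hA h3 h3'⟩, ReflTransGen.refl⟩
        · have h8 : δ t = δ p := lv_const h3 (fun u v h => h.2) rfl
          have h9 := stp_le hQ h7'
          omega
      · rcases split hQ h2 with h3' | ⟨q1, q2, l', hl, h3', h4', h5', h6', h7'⟩
        · have h8 : δ t = δ q := lv_const h3' (fun u v h => h.2) rfl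
          have h9 := stp_le hP h7
          omega
        · obtain ⟨z, hz, h8⟩ := ih (k' + l') (by omega) le_rfl h7 h7'
          refine ⟨z, hz, ReflTransGen.head (Or.inr (Or.inr ⟨heq.symm, p1, q1, hA h3 h3',
            ?_, ?_, ?_, ?_, ?_⟩)) h8⟩
          · change δ p1 < δ p2
            omega
          · change δ q1 < δ q2
            omega
          · exact h4.imp (fun h => h.2) (fun h => h)
          · exact h4'.imp (fun h => h.2) (fun h => h)
          · rintro ⟨h9, h10, h11, h12⟩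
            change p2 = q2 at h10
            change ¬ PA p1 p2 at h11
            change ¬ QA q1 q2 at h12
            have h13 := (h4.resolve_right h11).1
            have h14 := (h4'.resolve_right h12).1
            rw [← h9, ← h10] at h14
            exact hUW _ _ h13 h14
    · cases h2 with
      | nil => exact absurd hlt (not_lt.2 hpt)
      | @cons l _ y _ h3 h4 =>
        obtain ⟨z, hz, h5⟩ := ih (k + l) (by omega) le_rfl h1 h4
        have h6 : St PE PA QE QA δ (p, q) (p, y) :=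
          Or.inr (Or.inl ⟨hlt, rfl, h3.imp (fun h => h.2) (fun h => h)⟩)
        exact ⟨z, hz, ReflTransGen.head h6 h5⟩

/-- The product graph decides the existence of two walks without conflicts. -/
theorem core (ok : Ok PE PA QE QA δ) {p q : V} :
    (∃ z, Acc PE PA δ t z ∧ ReflTransGen (St PE PA QE QA δ) (p, q) z) ↔
      CF PE PA QE QA t p q := by
  constructor
  · rintro ⟨z, hz, h⟩
    obtain ⟨U, W, hUW, h1, h2, _, _⟩ := sound ok h hz
    exact ⟨U, W, hUW, h1, h2⟩
  · rintro ⟨U, W, hUW, h1, h2⟩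
    obtain ⟨k, hk⟩ := exists_Stp h1
    obtain ⟨l, hl⟩ := exists_Stp h2
    exact complete ok hUW (k + l) le_rfl hk hl

end Pool.Agent.R538.MO
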