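import Pool.Agent.NPC.Defs
import Pool.Agent.H614R2.DPO.Defs

/-!
# Mixed graphs: the definitions of the statement
-/

namespace Pool.Agent.R538.MO

open Pool.Agent.NPC

/-- `MPath O A lE lA s t l r`: the list `l` of vertices is a directed path (no vertex is repeated)
from `s` to `t` with length `r`. Each step of the path is either an undirected edge, used in a
direction allowed by `O` (with length `lE`), or an arc of `A` (with length `lA`). -/
inductive MPath {V : Type} (O A : V → V → Prop) (lE : Sym2 V → ℚ) (lA : V → V → ℚ) :
    V → V → List V → ℚ → Prop
  | nil (v : V) : MPath O A lE lA v v [v] 0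
  | edge {u v x : V} {l : List V} {r : ℚ} : O u v → u ∉ l → MPath O A lE lA v x l r →
      MPath O A lE lA u x (u :: l) (lE s(u, v) + r)
  | arc {u v x : V} {l : List V} {r : ℚ} : A u v → u ∉ l → MPath O A lE lA v x l r →
      MPath O A lE lA u x (u :: l) (lA u v + r)

/-- The minimum length of a directed path from `s` to `t` that uses edges in the directions
allowed by `O` and arcs of `A`, and `⊤` (infinity) if there is none. -/
noncomputable def mdist {V : Type} (O A : V → V → Prop) (lE : Sym2 V → ℚ) (lA : V → V → ℚ)
    (s t : V) : EReal :=
  ⨅ (l : List V) (r : ℚ) (_ : MPath O A lE lA s t l r), ((r : ℝ) : EReal)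

open Classical in
/-- The input as a bit string: the matrix of the edge lengths (`none` for pairs of vertices that
are not adjacent), the matrix of the arc lengths (`none` for pairs without an arc), and the two
vertices; rational numbers are given by numerator and denominator in binary. -/
noncomputable def minput {n : ℕ} (G : SimpleGraph (Fin n)) (A : Fin n → Fin n → Prop)
    (lE : Sym2 (Fin n) → ℚ) (lA : Fin n → Fin n → ℚ) (s t : Fin n) : List Bool :=
  bits (List.ofFn fun u => List.ofFn fun v => if G.Adj u v then some (lE s(u, v)) else none,
    List.ofFn fun u => List.ofFn fun v => if A u v then some (lA u v) else none,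
    (s : ℕ), (t : ℕ))

end Pool.Agent.R538.MO
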