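import Pool.Agent.R538.MO.AlgP
import Pool.Agent.R538.MO.Bridge
import Pool.Agent.H614R2.DPO.Final

/-!
# The algorithm on the input data
-/

namespace Pool.Agent.R538.MO

open Relation Pool.Agent.NPC Pool.Agent.H614R2.DPO

/-- the input data: matrix of the edge lengths, matrix of the arc lengths, two vertices -/
abbrev MData := List (List (Option ℚ)) × List (List (Option ℚ)) × ℕ × ℕ

/-- the product of all denominators -/
def dn (x : MData) : ℕ := denP (x.1 ++ x.2.1)

/-- lengths, scaled to integers -/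
def wS (D : ℕ) (W : List (List (Option ℚ))) (u v : ℕ) : Option ℕ :=
  (entry W u v).map (fun q => q.num.natAbs * (D / q.den))

/-- edge lengths, scaled -/
def wE (x : MData) (u v : ℕ) : Option ℕ := wS (dn x) x.1 u v

/-- arc lengths, scaled -/
def wA (x : MData) (u v : ℕ) : Option ℕ := wS (dn x) x.2.1 u v

/-- the shorter of both -/
def wC (x : MData) (u v : ℕ) : Option ℕ := comb (wE x u v) (wA x u v)

/-- distances -/
def pot (x : MData) (s v : ℕ) : ℕ := bfd (wC x) x.1.length s v

/-- test for tight steps -/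
def tiB (w : ℕ → ℕ → Option ℕ) (f : ℕ → ℕ) (u v : ℕ) : Bool :=
  (w u v).any (fun c => decide (f v = f u + c))

/-- reachability -/
def reB (x : MData) (s t : ℕ) : Bool :=
  decide (t ∈ reachG (fun u v => (wC x u v).isSome) (List.range x.1.length) s)

/-- The algorithm. -/
def alg (x : MData) : Bool :=
  !(reB x x.2.2.1 x.2.2.2 && reB x x.2.2.2 x.2.2.1) ||
    coreB (tiB (wE x) (pot x x.2.2.1)) (tiB (wA x) (pot x x.2.2.1))
      (fun u v => tiB (wE x) (pot x x.2.2.2) v u) (fun u v => tiB (wA x) (pot x x.2.2.2) v u)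
      (pot x x.2.2.1) (pot x x.2.2.2) (List.range x.1.length) x.2.2.1 x.2.2.2

/-! ### Polynomial time -/

section poly

variable {α : Type} [TEnc α]

attribute [local fun_prop] poly_natAbs poly_num poly_den poly_denP

theorem poly_dn {x : α → MData} (hx : Poly x) : Poly (fun a => dn (x a)) := by
  unfold dn
  fun_prop

attribute [local fun_prop] poly_dn
attribute [local irreducible] dn

theorem poly_wS {D : α → ℕ} {W : α → List (List (Option ℚ))} {u v : α → ℕ} (hD : Poly D)
    (hW : Poly W) (hu : Poly u) (hv : Poly v) :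
    Poly (fun a => wS (D a) (W a) (u a) (v a)) := by
  unfold wS entry
  fun_prop

attribute [local fun_prop] poly_wS
attribute [local irreducible] wS

theorem poly_wE {x : α → MData} {u v : α → ℕ} (hx : Poly x) (hu : Poly u) (hv : Poly v) :
    Poly (fun a => wE (x a) (u a) (v a)) := by
  unfold wE
  fun_prop

theorem poly_wA {x : α → MData} {u v : α → ℕ} (hx : Poly x) (hu : Poly u) (hv : Poly v) :
    Poly (fun a => wA (x a) (u a) (v a)) := by
  unfold wA
  fun_prop

attribute [local fun_prop] poly_wE poly_wA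
attribute [local irreducible] wE wA

theorem poly_comb {x y : α → Option ℕ} (hx : Poly x) (hy : Poly y) :
    Poly (fun a => comb (x a) (y a)) := by
  unfold comb
  fun_prop

attribute [local fun_prop] poly_comb
attribute [local irreducible] comb

theorem poly_wC {x : α → MData} {u v : α → ℕ} (hx : Poly x) (hu : Poly u) (hv : Poly v) :
    Poly (fun a => wC (x a) (u a) (v a)) := by
  unfold wC
  fun_prop

attribute [local fun_prop] poly_wC
attribute [local irreducible] wC

theorem poly_pot {x : α → MData} {s v : α → ℕ} (hx : Poly x) (hs : Poly s) (hv : Poly v) :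
    Poly (fun a => pot (x a) (s a) (v a)) := by
  unfold pot bfd
  refine Poly.getD (poly_bf (w := fun a => wC (x a)) (n := fun a => (x a).1.length)
    (s := s) ?_ (UPoly.length (Poly.fst hx)) hs) hv (NPC.Poly.const 0)
  exact poly_wC (x := fun p : α × ℕ × ℕ => x p.1) (hx.comp (Poly.fst Poly.id))
    (Poly.fst (Poly.snd Poly.id)) (Poly.snd (Poly.snd Poly.id))

attribute [local fun_prop] poly_pot
attribute [local irreducible] pot

theorem poly_tiB {w : α → ℕ → ℕ → Option ℕ} {f : α → ℕ → ℕ} {u v : α → ℕ}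
    (hw : Poly (fun p : α × ℕ × ℕ => w p.1 p.2.1 p.2.2))
    (hf : Poly (fun p : α × ℕ => f p.1 p.2)) (hu : Poly u) (hv : Poly v) :
    Poly (fun a => tiB (w a) (f a) (u a) (v a)) := by
  unfold tiB
  fun_prop

attribute [local fun_prop] poly_tiB
attribute [local irreducible] tiB

theorem poly_reB {x : α → MData} {s t : α → ℕ} (hx : Poly x) (hs : Poly s) (ht : Poly t) :
    Poly (fun a => reB (x a) (s a) (t a)) := by
  unfold reB
  refine Poly.dec_mem ht ?_
  refine p2_poly_reachG (R := fun a u v => (wC (x a) u v).isSome) ?_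
    (UPoly.range (UPoly.length (Poly.fst hx))) hs
  exact Poly.isSome (poly_wC (x := fun p : α × ℕ × ℕ => x p.1) (hx.comp (Poly.fst Poly.id))
    (Poly.fst (Poly.snd Poly.id)) (Poly.snd (Poly.snd Poly.id)))

theorem poly_alg : Poly alg := by
  unfold alg
  refine NPC.Poly.or (NPC.Poly.not (NPC.Poly.and (poly_reB Poly.id (Poly.fst (Poly.snd (Poly.snd
    Poly.id))) (Poly.snd (Poly.snd (Poly.snd Poly.id)))) (poly_reB Poly.id (Poly.snd (Poly.snd
    (Poly.snd Poly.id))) (Poly.fst (Poly.snd (Poly.snd Poly.id)))))) ?_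
  refine poly_coreB (pe := fun x => tiB (wE x) (pot x x.2.2.1))
    (pa := fun x => tiB (wA x) (pot x x.2.2.1))
    (qe := fun x u v => tiB (wE x) (pot x x.2.2.2) v u)
    (qa := fun x u v => tiB (wA x) (pot x x.2.2.2) v u)
    (a := fun x => pot x x.2.2.1) (b := fun x => pot x x.2.2.2)
    (R := fun x => List.range x.1.length) (s := fun x => x.2.2.1) (t := fun x => x.2.2.2)
    ?_ ?_ ?_ ?_ ?_ ?_ ?_ ?_ ?_
  · fun_prop
  · fun_prop
  · fun_prop
  · fun_prop
  · fun_prop
  · fun_prop
  · exact UPoly.range (UPoly.length (Poly.fst Poly.id))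
  · fun_prop
  · fun_prop

end poly

/-! ### Correctness of the core -/

section corr

variable {x : MData} {n : ℕ}

theorem tiB_iff {w : ℕ → ℕ → Option ℕ} {f : ℕ → ℕ} {u v : ℕ} :
    tiB w f u v = true ↔ ∃ c, w u v = some c ∧ f v = f u + c := by
  unfold tiB
  rw [Option.any_eq_true]
  simp

/-- steps with the two kinds of lengths -/
theorem ok_of {wE wA : ℕ → ℕ → Option ℕ} {a b : ℕ → ℕ} {s t : ℕ} (ha : Pot wE wA a s)
    (hb : Pot wE wA b t) :
    Ok (fun u v => tiB wE a u v = true) (fun u v => tiB wA a u v = true)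
      (fun u v => (fun u v => tiB wE b v u) u v = true)
      (fun u v => (fun u v => tiB wA b v u) u v = true) (dl a b) where
  pe u v h := by
    obtain ⟨c, h1, h2⟩ := tiB_iff.1 h
    have := hb.e _ _ _ h1
    unfold dl
    omega
  pa u v h := by
    obtain ⟨c, h1, h2⟩ := tiB_iff.1 h
    have := hb.a _ _ _ h1
    unfold dl
    omega
  qe u v h := by
    obtain ⟨c, h1, h2⟩ := tiB_iff.1 h
    have := ha.e _ _ _ h1
    unfold dl
    omega
  qa u v h := by
    obtain ⟨c, h1, h2⟩ := tiB_iff.1 h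
    have := ha.a _ _ _ h1
    unfold dl
    omega
  lvE u v h := by
    unfold dl at h
    dsimp only
    rw [tiB_iff, tiB_iff]
    constructor
    · rintro ⟨c, h1, h2⟩
      exact ⟨c, h1, by omega⟩
    · rintro ⟨c, h1, h2⟩
      exact ⟨c, h1, by omega⟩
  lvA u v h := by
    unfold dl at h
    dsimp only
    rw [tiB_iff, tiB_iff]
    constructor
    · rintro ⟨c, h1, h2⟩
      exact ⟨c, h1, by omega⟩
    · rintro ⟨c, h1, h2⟩
      exact ⟨c, h1, by omega⟩

/-- conflict-free walks and orientations -/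
theorem cf_iff {n : ℕ} {G : SimpleGraph (Fin n)} {A : Fin n → Fin n → Prop}
    {lE : Sym2 (Fin n) → ℚ} {lA : Fin n → Fin n → ℚ} {wE wA : ℕ → ℕ → Option ℕ} {D : ℚ}
    (hr : Rel G A lE lA wE wA D) {a b : ℕ → ℕ} {s t : ℕ} :
    CF (fun u v => tiB wE a u v = true) (fun u v => tiB wA a u v = true)
      (fun u v => (fun u v => tiB wE b v u) u v = true)
      (fun u v => (fun u v => tiB wA b v u) u v = true) t s s ↔
    ∃ O : Fin n → Fin n → Prop, IsOrientation G O ∧
      ReflTransGen (TS wE wA (up O) a) s t ∧ ReflTransGen (TS wE wA (up O) b) t s := by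
  constructor
  · rintro ⟨U, W, hUW, h1, h2⟩
    obtain ⟨C1, h3, h4, h5⟩ := exists_anti h1
    obtain ⟨C2, h6, h7, h8⟩ := exists_anti h2
    obtain ⟨O, hO, hO'⟩ := extend G (C := fun u v => (C1 u v ∧ U u v) ∨ (C2 v u ∧ W v u)) (by
      rintro u v (h | h) (h' | h')
      · exact h3 _ _ h.1 h'.1
      · exact hUW _ _ h.2 h'.2
      · exact hUW _ _ h'.2 h.2
      · exact h6 _ _ h.1 h'.1)
    refine ⟨O, hO, rmono h5 fun u v h => ?_, ?_⟩
    · rcases h4 _ _ h with h9 | h9
      · obtain ⟨c, hc, hc'⟩ := tiB_iff.1 h9.2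
        obtain ⟨hu, hv, huv⟩ := hr.e2 u v (by rw [hc]; simp)
        exact Or.inl ⟨⟨hu, hv, hO' _ _ huv (Or.inl ⟨h, h9.1⟩)⟩, c, hc, hc'⟩
      · exact Or.inr (tiB_iff.1 h9)
    · rw [← reflTransGen_swap] at h8
      refine rmono h8 fun u v h => ?_
      rcases h7 _ _ h with h9 | h9
      · obtain ⟨c, hc, hc'⟩ := tiB_iff.1 h9.2
        obtain ⟨hu, hv, huv⟩ := hr.e2 u v (by rw [hc]; simp)
        exact Or.inl ⟨⟨hu, hv, hO' _ _ huv (Or.inr ⟨h, h9.1⟩)⟩, c, hc, hc'⟩
      · exact Or.inr (tiB_iff.1 h9)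
  · rintro ⟨O, hO, h1, h2⟩
    refine ⟨up O, fun u v => up O v u, ?_, rmono h1 fun u v h => ?_, ?_⟩
    · rintro u v ⟨hu, hv, h⟩ ⟨_, _, h'⟩
      rcases hO.2 _ _ (hO.1 _ _ h) with h3 | h3
      · exact h3.2 h'
      · exact h3.2 h
    · rcases h with h | h
      · exact Or.inl ⟨h.1, tiB_iff.2 h.2⟩
      · exact Or.inr (tiB_iff.2 h)
    · rw [← reflTransGen_swap]
      refine rmono h2 fun u v h => ?_
      rcases h with h | h
      · exact Or.inl ⟨h.1, tiB_iff.2 h.2⟩
      · exact Or.inr (tiB_iff.2 h)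

end corr

/-! ### The data of an input -/

section data

open Classical in
/-- the data of an input -/
noncomputable def mdataOf {n : ℕ} (G : SimpleGraph (Fin n)) (A : Fin n → Fin n → Prop)
    (lE : Sym2 (Fin n) → ℚ) (lA : Fin n → Fin n → ℚ) (s t : Fin n) : MData :=
  (List.ofFn fun u => List.ofFn fun v => if G.Adj u v then some (lE s(u, v)) else none,
    List.ofFn fun u => List.ofFn fun v => if A u v then some (lA u v) else none,
    (s : ℕ), (t : ℕ))

open Classical in
theorem entry_mat {n : ℕ} (B : Fin n → Fin n → Prop) (l : Fin n → Fin n → ℚ) (u v : ℕ) :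
    entry (List.ofFn fun u => List.ofFn fun v => if B u v then some (l u v) else none) u v =
    if h : u < n ∧ v < n then
      (if B ⟨u, h.1⟩ ⟨v, h.2⟩ then some (l ⟨u, h.1⟩ ⟨v, h.2⟩) else none)
    else none := by
  unfold entry
  rw [getD_ofFn]
  by_cases hu : u < n
  · rw [dif_pos hu, getD_ofFn]
    by_cases hv : v < n
    · rw [dif_pos hv, dif_pos ⟨hu, hv⟩]
    · rw [dif_neg hv, dif_neg (fun h => hv h.2)]
  · rw [dif_neg hu, dif_neg (fun h => hu h.1)]
    simp

theorem den_dvd_left {W W' : List (List (Option ℚ))} {u v : ℕ} {q : ℚ}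
    (h : entry W u v = some q) : q.den ∣ denP (W ++ W') := by
  refine (den_dvd h).trans ?_
  unfold denP
  rw [List.flatMap_append, List.prod_append]
  exact dvd_mul_right _ _

theorem den_dvd_right {W W' : List (List (Option ℚ))} {u v : ℕ} {q : ℚ}
    (h : entry W' u v = some q) : q.den ∣ denP (W ++ W') := by
  refine (den_dvd h).trans ?_
  unfold denP
  rw [List.flatMap_append, List.prod_append]
  exact dvd_mul_left _ _

variable {n : ℕ} (G : SimpleGraph (Fin n)) (A : Fin n → Fin n → Prop)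
    (lE : Sym2 (Fin n) → ℚ) (lA : Fin n → Fin n → ℚ) (s t : Fin n)

theorem rel_data (hlE : ∀ e ∈ G.edgeSet, 0 ≤ lE e) (hlA : ∀ u v, A u v → 0 ≤ lA u v) :
    Rel G A lE lA (wE (mdataOf G A lE lA s t)) (wA (mdataOf G A lE lA s t))
      (dn (mdataOf G A lE lA s t) : ℚ) where
  pos := by
    unfold dn
    exact_mod_cast denP_pos _
  e1 u v h := by
    have h1 : entry (mdataOf G A lE lA s t).1 u v = some (lE s(u, v)) := by
      unfold mdataOf
      rw [entry_mat, dif_pos ⟨u.2, v.2⟩, if_pos h]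
    refine ⟨_, by rw [wE, wS, h1, Option.map_some], ?_⟩
    exact scale (hlE _ h) (den_dvd_left h1)
  a1 u v h := by
    have h1 : entry (mdataOf G A lE lA s t).2.1 u v = some (lA u v) := by
      unfold mdataOf
      rw [entry_mat, dif_pos ⟨u.2, v.2⟩, if_pos h]
    refine ⟨_, by rw [wA, wS, h1, Option.map_some], ?_⟩
    exact scale (hlA _ _ h) (den_dvd_right h1)
  e2 u v h := by
    unfold wE wS mdataOf at h
    rw [entry_mat] at h
    by_cases huv : u < n ∧ v < n
    · rw [dif_pos huv] at h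
      by_cases ha : G.Adj ⟨u, huv.1⟩ ⟨v, huv.2⟩
      · exact ⟨huv.1, huv.2, ha⟩
      · rw [if_neg ha] at h
        exact absurd rfl h
    · rw [dif_neg huv] at h
      exact absurd rfl h
  a2 u v h := by
    unfold wA wS mdataOf at h
    rw [entry_mat] at h
    by_cases huv : u < n ∧ v < n
    · rw [dif_pos huv] at h
      by_cases ha : A ⟨u, huv.1⟩ ⟨v, huv.2⟩
      · exact ⟨huv.1, huv.2, ha⟩
      · rw [if_neg ha] at h
        exact absurd rfl h
    · rw [dif_neg huv] at h
      exact absurd rfl h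

/-- The algorithm is correct. -/
theorem alg_correct (hlE : ∀ e ∈ G.edgeSet, 0 ≤ lE e) (hlA : ∀ u v, A u v → 0 ≤ lA u v) :
    alg (mdataOf G A lE lA s t) = true ↔
      ∃ O : Fin n → Fin n → Prop, IsOrientation G O ∧
        mdist O A lE lA s t = mdist G.Adj A lE lA s t ∧
        mdist O A lE lA t s = mdist G.Adj A lE lA t s := by
  have hr := rel_data G A lE lA s t hlE hlA
  set x := mdataOf G A lE lA s t with hxdef
  have hn : x.1.length = n := by rw [hxdef]; simp [mdataOf]
  have hxs : x.2.2.1 = (s : ℕ) := rfl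
  have hxt : x.2.2.2 = (t : ℕ) := rfl
  have hw : LtN (wC x) n := by
    intro u v h
    rcases comb_ne.1 h with h | h
    · obtain ⟨hu, hv, _⟩ := hr.e2 _ _ h
      exact ⟨hu, hv⟩
    · obtain ⟨hu, hv, _⟩ := hr.a2 _ _ h
      exact ⟨hu, hv⟩
  have hpot : ∀ y : Fin n, Pot (wE x) (wA x) (pot x y) y := by
    intro y
    unfold pot
    rw [hn]
    refine ⟨?_, fun u v c h => ?_, fun u v c h => ?_⟩
    · have := cbfd_le hw y.2 (Wk.nil (y : ℕ))
      omega
    · obtain ⟨d, hd, h2⟩ := comb_left (y := wA x u v) h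
      exact (cbfd_lip hw y.2 h2).trans (by omega)
    · obtain ⟨d, hd, h2⟩ := comb_right (x := wE x u v) h
      exact (cbfd_lip hw y.2 h2).trans (by omega)
  have hcomb : ∀ u v, (wC x u v ≠ none ↔ (wE x u v ≠ none ∨ wA x u v ≠ none)) :=
    fun u v => comb_ne
  have hreach : ∀ y z : Fin n,
      ReflTransGen (fun u v => wE x u v ≠ none ∨ wA x u v ≠ none) (y : ℕ) z →
      ReflTransGen (TS (wE x) (wA x) (fun _ _ => True) (pot x y)) y z := by
    intro y z h
    have h1 : ReflTransGen (fun u v => wC x u v ≠ none) (y : ℕ) z :=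
      rmono h fun u v h => (hcomb u v).2 h
    refine rmono (bfd_tight hw y.2 h1) fun u v h => ?_
    obtain ⟨c, hc, hfc⟩ := h
    have hfc' : pot x y v = pot x y u + c := by
      unfold pot
      rw [hn]
      exact hfc
    rcases comb_some hc with h | h
    · exact Or.inl ⟨trivial, c, h, hfc'⟩
    · exact Or.inr ⟨c, h, hfc'⟩
  have hreB : ∀ y z : Fin n, reB x y z = true ↔
      ReflTransGen (fun u v => wE x u v ≠ none ∨ wA x u v ≠ none) (y : ℕ) z := by
    intro y z
    unfold reB
    rw [decide_eq_true_eq, hn, td_reach_iff]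
    · constructor
      · rintro ⟨_, h⟩
        exact rmono h fun u v h => (hcomb u v).1 (Option.isSome_iff_ne_none.1 h)
      · intro h
        exact ⟨y.2, rmono h fun u v h => Option.isSome_iff_ne_none.2 ((hcomb u v).2 h)⟩
    · intro u v h
      exact (hw u v (Option.isSome_iff_ne_none.1 h)).2
  have hE : ∀ u v, G.Adj u v → 0 ≤ lE s(u, v) := fun u v h => hlE _ h
  have hd1 : ∀ O : Fin n → Fin n → Prop, IsOrientation G O →
      (mdist O A lE lA s t = mdist G.Adj A lE lA s t ↔
      (ReflTransGen (fun u v => wE x u v ≠ none ∨ wA x u v ≠ none) (s : ℕ) t →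
        ReflTransGen (TS (wE x) (wA x) (up O) (pot x s)) s t)) := fun O hO =>
    dist_iff hr hO.1 hE hlA (hpot s) (hreach s t)
  have hd2 : ∀ O : Fin n → Fin n → Prop, IsOrientation G O →
      (mdist O A lE lA t s = mdist G.Adj A lE lA t s ↔
      (ReflTransGen (fun u v => wE x u v ≠ none ∨ wA x u v ≠ none) (t : ℕ) s →
        ReflTransGen (TS (wE x) (wA x) (up O) (pot x t)) t s)) := fun O hO =>
    dist_iff hr hO.1 hE hlA (hpot t) (hreach t s)
  -- one of the two walks alone
  have hone : ∀ y z : Fin n, ∃ O : Fin n → Fin n → Prop, IsOrientation G O ∧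
      (ReflTransGen (fun u v => wE x u v ≠ none ∨ wA x u v ≠ none) (y : ℕ) z →
        ReflTransGen (TS (wE x) (wA x) (up O) (pot x y)) y z) := by
    intro y z
    by_cases h : ReflTransGen (fun u v => wE x u v ≠ none ∨ wA x u v ≠ none) (y : ℕ) z
    · obtain ⟨C, h1, h2, h3⟩ := exists_anti (hreach y z h)
      obtain ⟨O, hO, hO'⟩ := extend G h1
      refine ⟨O, hO, fun _ => rmono h3 fun u v h4 => ?_⟩
      rcases h2 _ _ h4 with ⟨_, c, hc, hfc⟩ | h5
      · obtain ⟨hu, hv, huv⟩ := hr.e2 u v (by rw [hc]; simp)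
        exact Or.inl ⟨⟨hu, hv, hO' _ _ huv h4⟩, c, hc, hfc⟩
      · exact Or.inr h5
    · obtain ⟨O, hO, _⟩ := extend G (C := fun _ _ => False) (fun _ _ h _ => h)
      exact ⟨O, hO, fun h' => absurd h' h⟩
  unfold alg
  rw [hxs, hxt, Bool.or_eq_true, Bool.not_eq_true', Bool.and_eq_false_iff]
  by_cases h1 : reB x s t = true
  · by_cases h2 : reB x t s = true
    · have h1' := (hreB s t).1 h1
      have h2' := (hreB t s).1 h2
      have hcore : coreB (tiB (wE x) (pot x s)) (tiB (wA x) (pot x s))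
          (fun u v => tiB (wE x) (pot x t) v u) (fun u v => tiB (wA x) (pot x t) v u)
          (pot x s) (pot x t) (List.range x.1.length) s t = true ↔
          ∃ O : Fin n → Fin n → Prop, IsOrientation G O ∧
            ReflTransGen (TS (wE x) (wA x) (up O) (pot x s)) s t ∧
            ReflTransGen (TS (wE x) (wA x) (up O) (pot x t)) t s := by
        rw [hn, coreB_iff ?_ ?_ ?_ ?_ (ok_of (hpot s) (hpot t)) s.2]
        · exact cf_iff hr
        · intro u v h
          obtain ⟨c, hc, _⟩ := tiB_iff.1 h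
          obtain ⟨hu, hv, _⟩ := hr.e2 u v (by rw [hc]; simp)
          exact ⟨hu, hv⟩
        · intro u v h
          obtain ⟨c, hc, _⟩ := tiB_iff.1 h
          obtain ⟨hu, hv, _⟩ := hr.a2 u v (by rw [hc]; simp)
          exact ⟨hu, hv⟩
        · intro u v h
          obtain ⟨c, hc, _⟩ := tiB_iff.1 h
          obtain ⟨hu, hv, _⟩ := hr.e2 v u (by rw [hc]; simp)
          exact ⟨hv, hu⟩
        · intro u v h
          obtain ⟨c, hc, _⟩ := tiB_iff.1 h
          obtain ⟨hu, hv, _⟩ := hr.a2 v u (by rw [hc]; simp)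
          exact ⟨hv, hu⟩
      rw [hcore, h1, h2]
      constructor
      · rintro ((h | h) | ⟨O, hO, h3, h4⟩)
        · exact absurd h (by simp)
        · exact absurd h (by simp)
        · exact ⟨O, hO, (hd1 O hO).2 fun _ => h3, (hd2 O hO).2 fun _ => h4⟩
      · rintro ⟨O, hO, h3, h4⟩
        exact Or.inr ⟨O, hO, (hd1 O hO).1 h3 h1', (hd2 O hO).1 h4 h2'⟩
    · have h2' : reB x t s = false := by simpa using h2
      refine ⟨fun _ => ?_, fun _ => Or.inl (Or.inr h2')⟩
      obtain ⟨O, hO, h3⟩ := hone s t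
      refine ⟨O, hO, (hd1 O hO).2 h3, (hd2 O hO).2 fun h4 => ?_⟩
      exact absurd ((hreB t s).2 h4) h2
  · have h1' : reB x s t = false := by simpa using h1
    refine ⟨fun _ => ?_, fun _ => Or.inl (Or.inl h1')⟩
    obtain ⟨O, hO, h3⟩ := hone t s
    refine ⟨O, hO, (hd1 O hO).2 fun h4 => ?_, (hd2 O hO).2 h3⟩
    exact absurd ((hreB s t).2 h4) h1

end data

end Pool.Agent.R538.MO
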